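import Pool.Agent.Helper37.RM.Defs

/-! Stage 5: the rare class (K), killed points (helper37) -/

set_option autoImplicit false
set_option linter.unusedSectionVars false

open scoped BigOperators
open Classical Module

namespace RMH

section K37

variable {ι : Type} [Fintype ι]
variable {V : Type} [AddCommGroup V] [Module (ZMod 2) V] [Fintype V]

/-- null families with a property of the restriction to `range s` -/
theorem card_gen37 {κ : Type} [Fintype κ] (r M : ℕ) (s : κ → ι) (hs : Function.Injective s)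
    (Q : (κ → V) → Prop)
    (hM : ∀ lam : (V → ZMod 2) → ZMod 2,
      cnt (fun y : {i // i ∉ Set.range s} → V => ∀ p ∈ PP V r, ∑ i, p (y i) = lam p) ≤ M) :
    cnt (fun z : ι → V => Null r z ∧ Q (fun k => z (s k))) ≤ cnt Q * M := by
  rw [cnt_eq, cnt_eq]
  set S := Finset.univ.filter (fun z : ι → V => Null r z ∧ Q (fun k => z (s k))) with hS
  set T := Finset.univ.filter Q with hT
  have h1 : S.card = ∑ u ∈ T, (S.filter (fun z => (fun k => z (s k)) = u)).card := by
    refine Finset.card_eq_sum_card_fiberwise (fun z hz => ?_)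
    rw [Finset.mem_coe, hS, Finset.mem_filter] at hz
    rw [Finset.mem_coe, hT, Finset.mem_filter]
    exact ⟨Finset.mem_univ _, hz.2.2⟩
  rw [h1]
  refine (Finset.sum_le_card_nsmul _ _ M (fun u _ => ?_)).trans (le_of_eq (smul_eq_mul _ _))
  refine le_trans ?_ (hM (fun p => ∑ k, p (u k)))
  rw [cnt_eq]
  refine Finset.card_le_card_of_injOn (fun z (i : {i // i ∉ Set.range s}) => z i) ?_ ?_
  · intro z hz
    rw [Finset.mem_coe, Finset.mem_filter, hS, Finset.mem_filter] at hz
    rw [Finset.mem_coe, Finset.mem_filter]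
    refine ⟨Finset.mem_univ _, fun p hp => ?_⟩
    have h2 := hz.1.2.1 p hp
    rw [← Finset.sum_filter_add_sum_filter_not Finset.univ (fun i => i ∈ Set.range s)] at h2
    have h3 : ∑ i ∈ Finset.univ.filter (fun i => i ∈ Set.range s), p (z i) = ∑ k, p (u k) := by
      have h4 : Finset.univ.filter (fun i => i ∈ Set.range s) = Finset.univ.image s := by
        ext i
        simp [Set.mem_range]
      rw [h4, Finset.sum_image (fun a _ b _ h => hs h)]
      refine Finset.sum_congr rfl fun k _ => ?_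
      have h5 : z (s k) = u k := congrFun hz.2 k
      rw [h5]
    have h4 : ∑ i ∈ Finset.univ.filter (fun i => i ∉ Set.range s), p (z i)
        = ∑ i : {i // i ∉ Set.range s}, p (z i) :=
      Finset.sum_subtype _ (fun i => by rw [Finset.mem_filter]; exact ⟨fun h => h.2, fun h => ⟨Finset.mem_univ _, h⟩⟩) _
    rw [h3, h4] at h2
    have h5 : ∀ a b : ZMod 2, a + b = 0 → b = a := by decide
    exact h5 _ _ h2
  · intro z hz z' hz' hzz
    rw [Finset.mem_coe, Finset.mem_filter] at hz hz'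
    funext i
    by_cases hi : i ∈ Set.range s
    · obtain ⟨k, rfl⟩ := hi
      have h2 := congrFun hz.2 k
      have h3 := congrFun hz'.2 k
      exact h2.trans h3.symm
    · exact congrFun hzz ⟨i, hi⟩

/-- the same with the fibre bound -/
theorem cnt_gen37 {κ : Type} [Fintype κ] (r a n j : ℕ) (hF : FibB r a n) (hι : Fintype.card ι = n)
    (hV : Fintype.card V = 2 ^ j) (s : κ → ι) (hs : Function.Injective s) (Q : (κ → V) → Prop) :
    (cnt (fun z : ι → V => Null r z ∧ Q (fun k => z (s k))) : ℝ)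
      ≤ cnt Q * ((j + 1) * P2 ((j : ℝ) * ((n : ℝ) - Fintype.card κ) / 2 + (a + 2) * ((n : ℝ) - Fintype.card κ))) := by
  have hle : Fintype.card κ ≤ n := by
    rw [← hι]
    exact Fintype.card_le_of_injective s hs
  have hc : Fintype.card {i // i ∉ Set.range s} = n - Fintype.card κ := by
    rw [← hι, ← Set.card_range_of_injective hs]
    exact Fintype.card_compl_set _
  have hcR : ((Fintype.card {i // i ∉ Set.range s} : ℕ) : ℝ) = (n : ℝ) - Fintype.card κ := by
    rw [hc, Nat.cast_sub hle]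
  set B : ℝ := (j + 1) * P2 ((j : ℝ) * ((n : ℝ) - Fintype.card κ) / 2 + (a + 2) * ((n : ℝ) - Fintype.card κ)) with hB
  have hB0 : 0 ≤ B := by
    have := P2_pos ((j : ℝ) * ((n : ℝ) - Fintype.card κ) / 2 + (a + 2) * ((n : ℝ) - Fintype.card κ))
    positivity
  have hM : ∀ lam : (V → ZMod 2) → ZMod 2,
      cnt (fun y : {i // i ∉ Set.range s} → V => ∀ p ∈ PP V r, ∑ i, p (y i) = lam p) ≤ ⌊B⌋₊ := by
    intro lam
    apply Nat.le_floor
    have h1 := hF {i // i ∉ Set.range s} V j (by rw [hc]; omega) hV lam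
    rwa [hcR] at h1
  have h1 := card_gen37 r ⌊B⌋₊ s hs Q hM
  have h2 : (cnt (fun z : ι → V => Null r z ∧ Q (fun k => z (s k))) : ℝ) ≤ ((cnt Q * ⌊B⌋₊ : ℕ) : ℝ) := by
    exact_mod_cast h1
  rw [Nat.cast_mul] at h2
  exact h2.trans (mul_le_mul_of_nonneg_left (Nat.floor_le hB0) (Nat.cast_nonneg _))

/-- closure count, version for small rank -/
theorem closure37 (t a d : ℕ) (ha : d < (a - t).choose t) :
    cnt (fun y : ι → V => finrank (ZMod 2) ↥((PP V t).map (pull y)) ≤ d)
      ≤ 2 ^ Fintype.card ι * Fintype.card V ^ d * 2 ^ (a * Fintype.card ι) := by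
  rw [cnt_eq]
  -- the families of given information set
  have hsub : Finset.univ.filter (fun y : ι → V => finrank (ZMod 2) ↥((PP V t).map (pull y)) ≤ d) ⊆
      ((Finset.univ : Finset (Finset ι)).filter (fun T => T.card ≤ d)).biUnion
        (fun T => Finset.univ.filter (fun y : ι → V => ∀ i, y i ∈ cl t (y '' T))) := by
    intro y hy
    have hy2 := (Finset.mem_filter.1 hy).2
    obtain ⟨T, hT, hT2⟩ := exists_info ((PP V t).map (pull y))
    rw [Finset.mem_biUnion]
    refine ⟨T, Finset.mem_filter.2 ⟨Finset.mem_univ _, hT.trans hy2⟩,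
      Finset.mem_filter.2 ⟨Finset.mem_univ _, fun i => mem_cl.2 fun p hp hz => ?_⟩⟩
    have h1 := hT2 (pull y p) (Submodule.mem_map_of_mem hp) (fun j hj => hz _ ⟨j, hj, rfl⟩)
    exact congrFun h1 i
  have hV : 1 ≤ Fintype.card V := Fintype.card_pos
  have hone : ∀ T ∈ ((Finset.univ : Finset (Finset ι)).filter (fun T => T.card ≤ d)),
      (Finset.univ.filter (fun y : ι → V => ∀ i, y i ∈ cl t (y '' T))).card
        ≤ Fintype.card V ^ d * 2 ^ (a * Fintype.card ι) := by
    intro T hT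
    have hTd := (Finset.mem_filter.1 hT).2
    have h1 := Finset.card_le_mul_card_image (f := fun (y : ι → V) (i : T) => y i)
      (Finset.univ.filter (fun y : ι → V => ∀ i, y i ∈ cl t (y '' T))) (2 ^ (a * Fintype.card ι)) (by
        intro z _
        have h2 : ((Finset.univ.filter (fun y : ι → V => ∀ i, y i ∈ cl t (y '' T))).filter
            (fun y => (fun (i : T) => y i) = z)) ⊆
            Fintype.piFinset (fun _ : ι => cl t (((Finset.univ : Finset T).image z : Finset V) : Set V)) := by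
          intro y hy
          obtain ⟨hy1, hy2⟩ := Finset.mem_filter.1 hy
          have hy3 := (Finset.mem_filter.1 hy1).2
          rw [Fintype.mem_piFinset]
          intro i
          have h3 : y '' T = (((Finset.univ : Finset T).image z : Finset V) : Set V) := by
            rw [← hy2]
            ext v
            simp
          rw [← h3]
          exact hy3 i
        refine (Finset.card_le_card h2).trans ?_
        rw [Fintype.card_piFinset, Finset.prod_const, Finset.card_univ, pow_mul]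
        refine Nat.pow_le_pow_left (card_cl t a _ ?_).le _
        refine lt_of_le_of_lt (Finset.card_image_le.trans ?_) ha
        rw [Finset.card_univ, Fintype.card_coe]
        exact hTd)
    refine h1.trans ?_
    rw [mul_comm]
    refine Nat.mul_le_mul_right _ ?_
    refine (Finset.card_le_univ _).trans ?_
    rw [Fintype.card_fun, Fintype.card_coe]
    exact Nat.pow_le_pow_right hV hTd
  refine (Finset.card_le_card hsub).trans (Finset.card_biUnion_le.trans ((Finset.sum_le_sum hone).trans ?_))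
  rw [Finset.sum_const, smul_eq_mul, mul_assoc]
  refine Nat.mul_le_mul_right _ ?_
  refine (Finset.card_le_univ _).trans (le_of_eq ?_)
  rw [Fintype.card_finset]

end K37

section Rows37

/-- splitting the coordinates -/
def spl37 {m : ℕ} (J : Finset (Fin m)) :
    (Fin m → ZMod 2) →ₗ[ZMod 2] (J → ZMod 2) × ({i // i ∉ J} → ZMod 2) where
  toFun x := (fun j => x j, fun j => x j)
  map_add' _ _ := rfl
  map_smul' _ _ := rfl

lemma spl37_inj {m : ℕ} (J : Finset (Fin m)) : Function.Injective (spl37 J) := by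
  intro x y h
  funext i
  by_cases hi : i ∈ J
  · exact congrFun (congrArg Prod.fst h) ⟨i, hi⟩
  · exact congrFun (congrArg Prod.snd h) ⟨i, hi⟩

lemma card_rows37 {m : ℕ} (J : Finset (Fin m)) : Fintype.card (J → ZMod 2) = 2 ^ J.card := by
  rw [Fintype.card_fun, ZMod.card, Fintype.card_coe]

lemma card_crows37 {m : ℕ} (J : Finset (Fin m)) :
    Fintype.card ({i // i ∉ J} → ZMod 2) = 2 ^ (m - J.card) := by
  rw [Fintype.card_fun, ZMod.card]
  congr 1
  have := Fintype.card_subtype_compl (fun i : Fin m => i ∈ J)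
  rw [this, Fintype.card_fin, Fintype.card_coe]

/-- the number of null families whose rows in `J` have a property and large rank -/
theorem rows_count37 (t m n : ℕ) (J : Finset (Fin m)) (δ : ℝ) (Q : (Fin n → (J → ZMod 2)) → Prop) :
    (cnt (fun x : Fin n → (Fin m → ZMod 2) => Null (t + 2) x ∧ Q (rws J x) ∧
      (1 / 2 - δ) * n ≤ finrank (ZMod 2) ↥((PP (J → ZMod 2) (t + 1)).map (pull (rws J x)))) : ℝ)
      ≤ cnt (fun z : Fin n → (J → ZMod 2) => Null (t + 2) z ∧ Q z)
        * P2 ((m - J.card) * ((1 / 2 + δ) * n)) := by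
  set G : (Fin n → (J → ZMod 2)) → Prop := fun z => Q z ∧
    (1 / 2 - δ) * n ≤ finrank (ZMod 2) ↥((PP (J → ZMod 2) (t + 1)).map (pull z)) with hG
  have h1 : cnt (fun x : Fin n → (Fin m → ZMod 2) => Null (t + 2) x ∧ Q (rws J x) ∧
      (1 / 2 - δ) * n ≤ finrank (ZMod 2) ↥((PP (J → ZMod 2) (t + 1)).map (pull (rws J x))))
      ≤ cnt (fun x : Fin n → (J → ZMod 2) × ({i // i ∉ J} → ZMod 2) => Null (t + 1 + 1) x ∧
        G (fun i => (x i).1)) := by
    refine cnt_le_of_inj (fun x i => spl37 J (x i)) (fun x hx => ⟨hx.1.comp (spl37 J), hx.2⟩) ?_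
    intro x y _ _ hxy
    funext i
    exact spl37_inj J (congrFun hxy i)
  obtain ⟨S, hS, h2⟩ := card_split' (ι := Fin n) (V := J → ZMod 2) (W := {i // i ∉ J} → ZMod 2) (t + 1) G
  have hJm : J.card ≤ m := by
    have := Finset.card_le_univ J
    rwa [Fintype.card_fin] at this
  have h3 : ((∑ z ∈ S,
      Fintype.card ({i // i ∉ J} → ZMod 2) ^ (Fintype.card (Fin n)
        - finrank (ZMod 2) ↥((PP (J → ZMod 2) (t + 1)).map (pull z))) : ℕ) : ℝ)
      ≤ (S.card : ℝ) * P2 ((m - J.card) * ((1 / 2 + δ) * n)) := by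
    rw [Nat.cast_sum, ← nsmul_eq_mul]
    refine Finset.sum_le_card_nsmul _ _ _ fun z hz => ?_
    have hz2 := ((hS z).1 hz).2.2
    rw [card_crows37, Fintype.card_fin, Nat.cast_pow, Nat.cast_pow, Nat.cast_ofNat, ← pow_mul, P2_nat]
    apply P2_mono
    have hle : finrank (ZMod 2) ↥((PP (J → ZMod 2) (t + 1)).map (pull z)) ≤ n := by
      refine (Submodule.finrank_le _).trans ?_
      rw [Module.finrank_fintype_fun_eq_card, Fintype.card_fin]
    rw [Nat.cast_mul, Nat.cast_sub hJm, Nat.cast_sub hle]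
    refine mul_le_mul_of_nonneg_left ?_ (by rw [sub_nonneg]; exact_mod_cast hJm)
    linarith
  have h4 : S.card ≤ cnt (fun z : Fin n → (J → ZMod 2) => Null (t + 2) z ∧ Q z) := by
    rw [cnt_eq]
    refine Finset.card_le_card fun z hz => ?_
    have hz2 := (hS z).1 hz
    exact Finset.mem_filter.2 ⟨Finset.mem_univ _, hz2.1, hz2.2.1⟩
  have h5 : (cnt (fun x : Fin n → (Fin m → ZMod 2) => Null (t + 2) x ∧ Q (rws J x) ∧
      (1 / 2 - δ) * n ≤ finrank (ZMod 2) ↥((PP (J → ZMod 2) (t + 1)).map (pull (rws J x)))) : ℝ)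
      ≤ ((∑ z ∈ S,
      Fintype.card ({i // i ∉ J} → ZMod 2) ^ (Fintype.card (Fin n)
        - finrank (ZMod 2) ↥((PP (J → ZMod 2) (t + 1)).map (pull z))) : ℕ) : ℝ) := by
    exact_mod_cast h1.trans h2
  refine (h5.trans h3).trans ?_
  refine mul_le_mul_of_nonneg_right ?_ (P2_pos _).le
  exact_mod_cast h4

lemma log_part37 (j : ℕ) : (j : ℝ) + 1 ≤ P2 j := by
  rw [← P2_nat]
  have h : j + 1 ≤ 2 ^ j := Nat.lt_two_pow_self
  exact_mod_cast h

/-- (K) killed points are rare; `j = |J|` -/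
theorem countK37 (t a a2 ρ p0 m n : ℕ) (J : Finset (Fin m)) (hF : FibB (t + 2) a n)
    (hρ : ρ < (a2 - t).choose t) (δ : ℝ) :
    (cnt (fun x : Fin n → (Fin m → ZMod 2) => Null (t + 2) x ∧ KillC t ρ p0 (rws J x) ∧
      (1 / 2 - δ) * n ≤ finrank (ZMod 2) ↥((PP (J → ZMod 2) (t + 1)).map (pull (rws J x)))) : ℝ)
      ≤ P2 ((m : ℝ) * n / 2 + (m - J.card) * (δ * n) + J.card * ρ + J.card + (a + 4) * n
          - p0 * ((J.card : ℝ) / 2 - a2)) := by
  have h1 := rows_count37 t m n J δ (fun z => KillC t ρ p0 z)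
  refine h1.trans ?_
  set j := J.card with hj
  -- restrict to exactly `p0` points
  have h2 : (cnt (fun z : Fin n → (J → ZMod 2) => Null (t + 2) z ∧ KillC t ρ p0 z) : ℝ)
      ≤ ∑ Ω : Finset (Fin n), (cnt (fun z : Fin n → (J → ZMod 2) => Ω.card = p0 ∧ (Null (t + 2) z ∧
        finrank (ZMod 2) ↥((PP (J → ZMod 2) t).map (pull (fun i : Ω => z i))) ≤ ρ)) : ℝ) := by
    have h3 := cnt_exists (fun (Ω : Finset (Fin n)) (z : Fin n → (J → ZMod 2)) =>
      Ω.card = p0 ∧ (Null (t + 2) z ∧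
        finrank (ZMod 2) ↥((PP (J → ZMod 2) t).map (pull (fun i : Ω => z i))) ≤ ρ))
    have h4 : cnt (fun z : Fin n → (J → ZMod 2) => Null (t + 2) z ∧ KillC t ρ p0 z)
        ≤ cnt (fun z : Fin n → (J → ZMod 2) => ∃ Ω : Finset (Fin n), Ω.card = p0 ∧ (Null (t + 2) z ∧
        finrank (ZMod 2) ↥((PP (J → ZMod 2) t).map (pull (fun i : Ω => z i))) ≤ ρ)) := by
      refine cnt_mono fun z hz => ?_
      obtain ⟨hz1, Ω, hΩ, hΩ2⟩ := hz
      obtain ⟨Ω', hΩ', hc⟩ := Finset.exists_subset_card_eq hΩ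
      refine ⟨Ω', hc, hz1, le_trans ?_ hΩ2⟩
      apply rank_le_of_ker37
      intro p _ hp
      funext i
      exact congrFun hp ⟨i, hΩ' i.2⟩
    exact_mod_cast h4.trans h3
  have h3 : ∀ Ω : Finset (Fin n), (cnt (fun z : Fin n → (J → ZMod 2) => Ω.card = p0 ∧ (Null (t + 2) z ∧
        finrank (ZMod 2) ↥((PP (J → ZMod 2) t).map (pull (fun i : Ω => z i))) ≤ ρ)) : ℝ)
      ≤ P2 ((j : ℝ) * ρ + j + (j : ℝ) * n / 2 + (a + 3) * n - p0 * ((j : ℝ) / 2 - a2)) := by
    intro Ω
    by_cases hΩ : Ω.card = p0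
    · have h4 := cnt_gen37 (ι := Fin n) (V := J → ZMod 2) (κ := Ω) (t + 2) a n j hF (Fintype.card_fin n)
        (card_rows37 J) (fun i : Ω => (i : Fin n)) Subtype.val_injective
        (fun u => finrank (ZMod 2) ↥((PP (J → ZMod 2) t).map (pull u)) ≤ ρ)
      have h5 := closure37 (ι := Ω) (V := J → ZMod 2) t a2 ρ hρ
      have h6 : (cnt (fun z : Fin n → (J → ZMod 2) => Ω.card = p0 ∧ (Null (t + 2) z ∧
        finrank (ZMod 2) ↥((PP (J → ZMod 2) t).map (pull (fun i : Ω => z i))) ≤ ρ)) : ℝ)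
        ≤ (cnt (fun z : Fin n → (J → ZMod 2) => Null (t + 2) z ∧
        finrank (ZMod 2) ↥((PP (J → ZMod 2) t).map (pull (fun i : Ω => z i))) ≤ ρ) : ℝ) := by
        have h6' : cnt (fun z : Fin n → (J → ZMod 2) => Ω.card = p0 ∧ (Null (t + 2) z ∧
          finrank (ZMod 2) ↥((PP (J → ZMod 2) t).map (pull (fun i : Ω => z i))) ≤ ρ))
          ≤ cnt (fun z : Fin n → (J → ZMod 2) => Null (t + 2) z ∧
          finrank (ZMod 2) ↥((PP (J → ZMod 2) t).map (pull (fun i : Ω => z i))) ≤ ρ) :=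
          cnt_mono (fun z hz => hz.2)
        exact_mod_cast h6'
      rw [Fintype.card_coe, hΩ, card_rows37] at h5
      rw [Fintype.card_coe, hΩ] at h4
      have h7 : (cnt (fun u : Ω → (J → ZMod 2) => finrank (ZMod 2) ↥((PP (J → ZMod 2) t).map (pull u)) ≤ ρ) : ℝ)
          ≤ P2 (p0 + j * ρ + a2 * p0) := by
        have h8 : (cnt (fun u : Ω → (J → ZMod 2) => finrank (ZMod 2) ↥((PP (J → ZMod 2) t).map (pull u)) ≤ ρ) : ℝ)
          ≤ ((2 ^ p0 * (2 ^ J.card) ^ ρ * 2 ^ (a2 * p0) : ℕ) : ℝ) := by exact_mod_cast h5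
        refine h8.trans (le_of_eq ?_)
        push_cast
        rw [← pow_mul, P2_nat, P2_nat, P2_nat, ← P2_add, ← P2_add]
        congr 1
        push_cast
        ring
      refine h6.trans (h4.trans ?_)
      have hp0n : (p0 : ℝ) ≤ n := by
        have h9 : Ω.card ≤ n := by
          have := Finset.card_le_univ Ω
          rwa [Fintype.card_fin] at this
        rw [← hΩ]
        exact_mod_cast h9
      calc (cnt (fun u : Ω → (J → ZMod 2) => finrank (ZMod 2) ↥((PP (J → ZMod 2) t).map (pull u)) ≤ ρ) : ℝ)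
            * ((j + 1) * P2 ((j : ℝ) * ((n : ℝ) - p0) / 2 + (a + 2) * ((n : ℝ) - p0)))
          ≤ P2 (p0 + j * ρ + a2 * p0) * (P2 j * P2 ((j : ℝ) * ((n : ℝ) - p0) / 2 + (a + 2) * ((n : ℝ) - p0))) := by
            refine mul_le_mul h7 (mul_le_mul_of_nonneg_right (log_part37 j) (P2_pos _).le) ?_ (P2_pos _).le
            have := P2_pos ((j : ℝ) * ((n : ℝ) - p0) / 2 + (a + 2) * ((n : ℝ) - p0))
            positivity
        _ = P2 (p0 + j * ρ + a2 * p0 + (j + ((j : ℝ) * ((n : ℝ) - p0) / 2 + (a + 2) * ((n : ℝ) - p0)))) := by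
            rw [← P2_add, ← P2_add]
        _ ≤ _ := by
            apply P2_mono
            have ha : (0 : ℝ) ≤ a := Nat.cast_nonneg _
            have hp : (0 : ℝ) ≤ p0 := Nat.cast_nonneg _
            nlinarith [mul_nonneg ha hp]
    · have h0 : cnt (fun z : Fin n → (J → ZMod 2) => Ω.card = p0 ∧ (Null (t + 2) z ∧
        finrank (ZMod 2) ↥((PP (J → ZMod 2) t).map (pull (fun i : Ω => z i))) ≤ ρ)) = 0 := by
        unfold cnt
        rw [Nat.card_eq_zero]
        left
        exact ⟨fun z => hΩ z.2.1⟩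
      rw [h0, Nat.cast_zero]
      exact (P2_pos _).le
  have h4 : (cnt (fun z : Fin n → (J → ZMod 2) => Null (t + 2) z ∧ KillC t ρ p0 z) : ℝ)
      ≤ P2 n * P2 ((j : ℝ) * ρ + j + (j : ℝ) * n / 2 + (a + 3) * n - p0 * ((j : ℝ) / 2 - a2)) := by
    refine h2.trans ((Finset.sum_le_card_nsmul _ _ _ fun Ω _ => h3 Ω).trans (le_of_eq ?_))
    rw [nsmul_eq_mul, Finset.card_univ, Fintype.card_finset, Fintype.card_fin, Nat.cast_pow,
      Nat.cast_ofNat, P2_nat]
  refine (mul_le_mul_of_nonneg_right h4 (P2_pos _).le).trans ?_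
  rw [← P2_add, ← P2_add]
  apply P2_mono
  apply le_of_eq
  ring

end Rows37

end RMH
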