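import Pool.Agent.Helper37.RM.CntK

/-! Stage 5: the rare class (N), pairs with non saturated differences (helper37) -/

set_option autoImplicit false
set_option linter.unusedSectionVars false

open scoped BigOperators
open Classical Module

namespace RMH

section N37

variable {V : Type} [AddCommGroup V] [Module (ZMod 2) V] [Fintype V]

lemma add_self37 (v : V) : v + v = 0 := by
  have h : (2 : ZMod 2) = 0 := rfl
  rw [← two_smul (ZMod 2) v, h, zero_smul]

/-- the values of an unseparated pair with non saturated difference -/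
noncomputable def vals37 (c : ℕ) (N : Submodule (ZMod 2) (V → ZMod 2)) : Finset (V × V) :=
  Finset.univ.filter (fun q => (∀ f ∈ N, f q.1 = f q.2) ∧
    (Finset.univ.filter (fun w : V => ∀ f ∈ N, f w = f (w + (q.1 + q.2)))).card < 2 ^ c)

lemma card_vals37 (t b c : ℕ) (ht : 1 ≤ t) (N : Submodule (ZMod 2) (V → ZMod 2)) (hN : N ≤ PP V t)
    (hc : finrank (ZMod 2) (PP V t) < finrank (ZMod 2) N + b.choose t) :
    (vals37 c N).card ≤ 2 ^ (5 * b + c) := by
  have h1 := few_diff37 t b ht N hN hc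
  have h2 := Finset.card_le_mul_card_image (f := fun q : V × V => q.1 + q.2) (vals37 c N) (2 ^ c) (by
    intro d hd
    obtain ⟨q0, hq0, rfl⟩ := Finset.mem_image.1 hd
    have hq1 := (Finset.mem_filter.1 hq0).2.2
    refine le_trans ?_ hq1.le
    refine Finset.card_le_card_of_injOn (fun q => q.1) ?_ ?_
    · intro q hq
      obtain ⟨hq2, hq3⟩ := Finset.mem_filter.1 hq
      have hq4 := (Finset.mem_filter.1 hq2).2.1
      rw [Finset.mem_coe, Finset.mem_filter]
      refine ⟨Finset.mem_univ _, fun f hf => ?_⟩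
      rw [hq4 f hf, ← hq3, ← add_assoc, add_self37, zero_add]
    · intro q hq q' hq' h
      have h3 := (Finset.mem_filter.1 (Finset.mem_coe.1 hq)).2
      have h4 := (Finset.mem_filter.1 (Finset.mem_coe.1 hq')).2
      have h5 : q.1 = q'.1 := h
      refine Prod.ext h5 ?_
      have h6 : q.1 + q.2 = q'.1 + q'.2 := h3.trans h4.symm
      rw [h5] at h6
      exact add_left_cancel h6)
  have h3 : ((vals37 c N).image (fun q : V × V => q.1 + q.2)).card ≤ 2 ^ (5 * b) := by
    refine le_trans (Finset.card_le_card ?_) h1.le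
    intro d hd
    obtain ⟨q, hq, rfl⟩ := Finset.mem_image.1 hd
    refine Finset.mem_filter.2 ⟨Finset.mem_univ _, q.1, fun f hf => ?_⟩
    rw [(Finset.mem_filter.1 hq).2.1 f hf, ← add_assoc, add_self37, zero_add]
  refine h2.trans ?_
  rw [pow_add, mul_comm (2 ^ (5 * b))]
  exact Nat.mul_le_mul_left _ h3

/-- the codimension of `ZZ` on few pairs -/
lemma codim_ZZ37 {β : Type} [Fintype β] (t : ℕ) (x y : β → V) :
    finrank (ZMod 2) (PP V t) ≤ finrank (ZMod 2) (ZZ t x y) + Fintype.card β := by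
  have h1 := finrank_map_add (dif x y) (PP V t)
  have h2 : finrank (ZMod 2) ↥((PP V t).map (dif x y)) ≤ Fintype.card β := by
    refine (Submodule.finrank_le _).trans ?_
    rw [Module.finrank_fintype_fun_eq_card]
  unfold ZZ
  omega

/-- the number of families on `T ⊔ B` whose pairs over `B` are unseparated and non saturated with
respect to the pairs over `T` -/
lemma count_TB37 (t b c ρ j p : ℕ) (ht : 1 ≤ t) (hρ : ρ < b.choose t) (hV : Fintype.card V = 2 ^ j)
    (T B : Finset (Fin p)) (hT : T.card ≤ ρ) (hTB : Disjoint T B) :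
    cnt (fun w : (↥(T ∪ B) ⊕ ↥(T ∪ B)) → V => ∀ k : B,
      (w (Sum.inl ⟨k, Finset.mem_union_right _ k.2⟩), w (Sum.inr ⟨k, Finset.mem_union_right _ k.2⟩))
        ∈ vals37 c (ZZ t (fun i : T => w (Sum.inl ⟨i, Finset.mem_union_left _ i.2⟩))
          (fun i : T => w (Sum.inr ⟨i, Finset.mem_union_left _ i.2⟩))))
      ≤ 2 ^ (2 * j * T.card + (5 * b + c) * B.card) := by
  rw [cnt_eq]
  set S := Finset.univ.filter (fun w : (↥(T ∪ B) ⊕ ↥(T ∪ B)) → V => ∀ k : B,
      (w (Sum.inl ⟨k, Finset.mem_union_right _ k.2⟩), w (Sum.inr ⟨k, Finset.mem_union_right _ k.2⟩))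
        ∈ vals37 c (ZZ t (fun i : T => w (Sum.inl ⟨i, Finset.mem_union_left _ i.2⟩))
          (fun i : T => w (Sum.inr ⟨i, Finset.mem_union_left _ i.2⟩)))) with hS
  set f : ((↥(T ∪ B) ⊕ ↥(T ∪ B)) → V) → (T → V) × (T → V) := fun w =>
    (fun i : T => w (Sum.inl ⟨i, Finset.mem_union_left _ i.2⟩),
      fun i : T => w (Sum.inr ⟨i, Finset.mem_union_left _ i.2⟩)) with hf
  have h1 := Finset.card_le_mul_card_image (f := f) S (2 ^ ((5 * b + c) * B.card)) (by
    intro q _
    set N := ZZ t q.1 q.2 with hN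
    have hcod : finrank (ZMod 2) (PP V t) ≤ finrank (ZMod 2) N + T.card := by
      have h := codim_ZZ37 t q.1 q.2
      rwa [Fintype.card_coe] at h
    have h2 := card_vals37 t b c ht N inf_le_left (by omega)
    have h3 : (S.filter (fun w => f w = q)).card ≤
        (Fintype.piFinset (fun _ : B => vals37 c N)).card := by
      refine Finset.card_le_card_of_injOn (fun w (k : B) =>
        (w (Sum.inl ⟨k, Finset.mem_union_right _ k.2⟩), w (Sum.inr ⟨k, Finset.mem_union_right _ k.2⟩))) ?_ ?_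
      · intro w hw
        obtain ⟨hw1, hw2⟩ := Finset.mem_filter.1 (Finset.mem_coe.1 hw)
        rw [Finset.mem_coe, Fintype.mem_piFinset]
        intro k
        have h4 := (Finset.mem_filter.1 hw1).2 k
        have h5 : ZZ t (fun i : T => w (Sum.inl ⟨i, Finset.mem_union_left _ i.2⟩))
          (fun i : T => w (Sum.inr ⟨i, Finset.mem_union_left _ i.2⟩)) = N := by
          rw [hN, ← hw2]
        rw [h5] at h4
        exact h4
      · intro w hw w' hw' hww
        obtain ⟨_, hw2⟩ := Finset.mem_filter.1 (Finset.mem_coe.1 hw)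
        obtain ⟨_, hw2'⟩ := Finset.mem_filter.1 (Finset.mem_coe.1 hw')
        have h4 : f w = f w' := hw2.trans hw2'.symm
        funext k
        rcases k with ⟨k, hk⟩ | ⟨k, hk⟩
        · rcases Finset.mem_union.1 hk with h5 | h5
          · exact congrFun (congrArg Prod.fst h4) ⟨k, h5⟩
          · exact congrArg Prod.fst (congrFun hww ⟨k, h5⟩)
        · rcases Finset.mem_union.1 hk with h5 | h5
          · exact congrFun (congrArg Prod.snd h4) ⟨k, h5⟩
          · exact congrArg Prod.snd (congrFun hww ⟨k, h5⟩)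
    refine h3.trans ?_
    rw [Fintype.card_piFinset, Finset.prod_const, Finset.card_univ, Fintype.card_coe, pow_mul]
    exact Nat.pow_le_pow_left h2 _)
  refine h1.trans ?_
  have h2 : (S.image f).card ≤ 2 ^ (2 * j * T.card) := by
    refine (Finset.card_le_univ _).trans (le_of_eq ?_)
    rw [Fintype.card_prod, Fintype.card_fun, Fintype.card_coe, hV, ← pow_mul, ← pow_add]
    congr 1
    ring
  rw [pow_add, mul_comm]
  exact Nat.mul_le_mul_right _ h2

end N37

/-- the restricted property: pairs over `T` and over `B` -/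
def TB37 {V : Type} [AddCommGroup V] [Module (ZMod 2) V] [Fintype V] {p : ℕ} (t c : ℕ)
    (T B : Finset (Fin p)) (w : (↥(T ∪ B) ⊕ ↥(T ∪ B)) → V) : Prop :=
  ∀ k : B, (w (Sum.inl ⟨k, Finset.mem_union_right _ k.2⟩), w (Sum.inr ⟨k, Finset.mem_union_right _ k.2⟩))
    ∈ vals37 c (ZZ t (fun i : T => w (Sum.inl ⟨i, Finset.mem_union_left _ i.2⟩))
      (fun i : T => w (Sum.inr ⟨i, Finset.mem_union_left _ i.2⟩)))

/-- the property of a family for given pairs and given sets `T`, `B` -/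
def QQ37 {V : Type} [AddCommGroup V] [Module (ZMod 2) V] [Fintype V] {p n : ℕ} (t c ρ q : ℕ)
    (u v : Fin p → Fin n) (T B : Finset (Fin p)) (z : Fin n → V) : Prop :=
  (Function.Injective (Sum.elim u v) ∧ T.card ≤ ρ ∧ B.card = q ∧ Disjoint T B) ∧
    (Null (t + 2) z ∧ TB37 t c T B (fun k => z (Sum.elim (fun k : ↥(T ∪ B) => u k) (fun k : ↥(T ∪ B) => v k) k)))

section M37

variable {V : Type} [AddCommGroup V] [Module (ZMod 2) V] [Fintype V]

lemma exists_TB37 {p n : ℕ} (t c ρ p1 : ℕ) (u v : Fin p → Fin n) (huv : Function.Injective (Sum.elim u v))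
    (z : Fin n → V) (hz1 : Null (t + 2) z) (hP : PairR t ρ u v z)
    (hns : p1 ≤ nonsat t c (fun i => z (u i)) (fun i => z (v i))) :
    ∃ T B : Finset (Fin p), QQ37 t c ρ (p1 - ρ) u v T B z := by
  obtain ⟨T, hT, hT2⟩ := exists_info ((PP V t).map (dif (fun b => z (u b)) (fun b => z (v b))))
  have hZ : ZZ t (fun i : T => z (u i)) (fun i : T => z (v i))
      = ZZ t (fun b => z (u b)) (fun b => z (v b)) := by
    ext f
    rw [mem_ZZ, mem_ZZ]
    constructor
    · rintro ⟨hf1, hf2⟩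
      refine ⟨hf1, ?_⟩
      have h5 := hT2 _ (Submodule.mem_map_of_mem hf1) (fun i hi => by
        rw [dif_apply]
        have h := hf2 ⟨i, hi⟩
        have h6 : ∀ a b : ZMod 2, a = b → a + b = 0 := by decide
        exact h6 _ _ h)
      intro b
      have h6 := congrFun h5 b
      rw [dif_apply] at h6
      have h7 : ∀ a b : ZMod 2, a + b = 0 → a = b := by decide
      exact h7 _ _ h6
    · rintro ⟨hf1, hf2⟩
      exact ⟨hf1, fun i => hf2 i⟩
  have h6 : p1 ≤ (Finset.univ.filter (fun b : Fin p =>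
    (Finset.univ.filter (fun w : V => ∀ f ∈ ZZ t (fun b => z (u b)) (fun b => z (v b)),
      f w = f (w + (z (u b) + z (v b))))).card < 2 ^ c)).card := hns
  obtain ⟨NS, hNS⟩ : ∃ NS, NS = Finset.univ.filter (fun b : Fin p =>
    (Finset.univ.filter (fun w : V => ∀ f ∈ ZZ t (fun b => z (u b)) (fun b => z (v b)),
      f w = f (w + (z (u b) + z (v b))))).card < 2 ^ c) := ⟨_, rfl⟩
  rw [← hNS] at h6
  have hc : p1 - ρ ≤ (NS \ T).card := by
    have h5 := Finset.le_card_sdiff T NS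
    have h7 : T.card ≤ ρ := hT.trans hP
    omega
  obtain ⟨B, hB, hBc⟩ := Finset.exists_subset_card_eq hc
  refine ⟨T, B, ⟨huv, hT.trans hP, hBc, ?_⟩, hz1, ?_⟩
  · rw [Finset.disjoint_right]
    intro k hk
    exact (Finset.mem_sdiff.1 (hB hk)).2
  · intro k
    show (z (u k), z (v k)) ∈ vals37 c (ZZ t (fun i : T => z (u i)) (fun i : T => z (v i)))
    rw [hZ]
    have hk := (Finset.mem_sdiff.1 (hB k.2)).1
    rw [hNS] at hk
    exact Finset.mem_filter.2 ⟨Finset.mem_univ _, fun f hf => (mem_ZZ.1 hf).2 k, (Finset.mem_filter.1 hk).2⟩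

lemma cnt_QQ37 (t a b c ρ p1 p j n : ℕ) (ht : 1 ≤ t) (hF : FibB (t + 2) a n)
    (hρ : ρ < b.choose t) (hρp : ρ ≤ p1) (hV : Fintype.card V = 2 ^ j)
    (u v : Fin p → Fin n) (T B : Finset (Fin p)) :
    (cnt (fun z : Fin n → V => QQ37 t c ρ (p1 - ρ) u v T B z) : ℝ)
      ≤ P2 ((j : ℝ) * ρ + j + (j : ℝ) * n / 2 + (a + 2) * n - (p1 - ρ) * ((j : ℝ) - c - 5 * b)) := by
  by_cases hD : Function.Injective (Sum.elim u v) ∧ T.card ≤ ρ ∧ B.card = p1 - ρ ∧ Disjoint T B
  · obtain ⟨huv, hT, hBc, hTB⟩ := hD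
    have hs : Function.Injective (Sum.elim (fun k : ↥(T ∪ B) => u k) (fun k : ↥(T ∪ B) => v k)) := by
      intro k k' h
      rcases k with k | k <;> rcases k' with k' | k'
      · have h2 : (Sum.inl (k : Fin p) : Fin p ⊕ Fin p) = Sum.inl (k' : Fin p) := huv h
        rw [Subtype.ext (Sum.inl_injective h2)]
      · have h2 : (Sum.inl (k : Fin p) : Fin p ⊕ Fin p) = Sum.inr (k' : Fin p) := huv h
        exact absurd h2 (by simp)
      · have h2 : (Sum.inr (k : Fin p) : Fin p ⊕ Fin p) = Sum.inl (k' : Fin p) := huv h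
        exact absurd h2 (by simp)
      · have h2 : (Sum.inr (k : Fin p) : Fin p ⊕ Fin p) = Sum.inr (k' : Fin p) := huv h
        rw [Subtype.ext (Sum.inr_injective h2)]
    have h4 := cnt_gen37 (ι := Fin n) (V := V) (κ := ↥(T ∪ B) ⊕ ↥(T ∪ B)) (t + 2) a n j hF
      (Fintype.card_fin n) hV _ hs (TB37 t c T B)
    have h5 : cnt (TB37 (V := V) t c T B) ≤ 2 ^ (2 * j * T.card + (5 * b + c) * B.card) :=
      count_TB37 (V := V) t b c ρ j p ht hρ hV T B hT hTB
    have h6 : cnt (fun z : Fin n → V => QQ37 t c ρ (p1 - ρ) u v T B z) ≤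
        cnt (fun z : Fin n → V => Null (t + 2) z ∧ TB37 t c T B
          (fun k => z (Sum.elim (fun k : ↥(T ∪ B) => u k) (fun k : ↥(T ∪ B) => v k) k))) :=
      cnt_mono fun z hz => hz.2
    have h7 : (cnt (fun z : Fin n → V => QQ37 t c ρ (p1 - ρ) u v T B z) : ℝ) ≤
        (cnt (fun z : Fin n → V => Null (t + 2) z ∧ TB37 t c T B
          (fun k => z (Sum.elim (fun k : ↥(T ∪ B) => u k) (fun k : ↥(T ∪ B) => v k) k))) : ℝ) := by
      exact_mod_cast h6
    refine h7.trans (h4.trans ?_)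
    have hcard : Fintype.card (↥(T ∪ B) ⊕ ↥(T ∪ B)) = 2 * (T.card + B.card) := by
      rw [Fintype.card_sum, Fintype.card_coe, Finset.card_union_of_disjoint hTB]
      ring
    rw [hcard]
    have h8 : ((2 ^ (2 * j * T.card + (5 * b + c) * B.card) : ℕ) : ℝ)
        = P2 (2 * j * T.card + (5 * b + c) * B.card) := by
      rw [Nat.cast_pow, Nat.cast_ofNat, P2_nat]
      congr 1
      push_cast
      ring
    have h9 : (cnt (TB37 (V := V) t c T B) : ℝ) ≤ P2 (2 * j * T.card + (5 * b + c) * B.card) := by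
      rw [← h8]
      exact_mod_cast h5
    obtain ⟨E, hE⟩ : ∃ E : ℝ, E = (j : ℝ) * ((n : ℝ) - ((2 * (T.card + B.card) : ℕ) : ℝ)) / 2
      + (a + 2) * ((n : ℝ) - ((2 * (T.card + B.card) : ℕ) : ℝ)) := ⟨_, rfl⟩
    rw [← hE]
    refine (mul_le_mul h9 (mul_le_mul_of_nonneg_right (log_part37 j) (P2_pos _).le) (by
      have := P2_pos E
      positivity) (P2_pos _).le).trans ?_
    rw [← P2_add, ← P2_add]
    apply P2_mono
    have hTρ : (T.card : ℝ) ≤ ρ := by exact_mod_cast hT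
    have hBr : (B.card : ℝ) = p1 - ρ := by rw [hBc, Nat.cast_sub hρp]
    have hT0 : (0 : ℝ) ≤ T.card := Nat.cast_nonneg _
    have hB0 : (0 : ℝ) ≤ B.card := Nat.cast_nonneg _
    have hj0 : (0 : ℝ) ≤ j := Nat.cast_nonneg _
    have ha0 : (0 : ℝ) ≤ a := Nat.cast_nonneg _
    have e1 := mul_le_mul_of_nonneg_left hTρ hj0
    have e2 : (0 : ℝ) ≤ (a + 2) * (2 * (T.card + B.card)) := by positivity
    rw [hE]
    push_cast
    rw [← hBr]
    linarith
  · have h0 : cnt (fun z : Fin n → V => QQ37 t c ρ (p1 - ρ) u v T B z) = 0 := by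
      unfold cnt
      rw [Nat.card_eq_zero]
      left
      exact ⟨fun z => hD z.2.1⟩
    rw [h0, Nat.cast_zero]
    exact (P2_pos _).le

end M37

/-- (N) many pairs with non saturated difference are rare -/
theorem countN37 (t a b c ρ p1 p L m n : ℕ) (J : Finset (Fin m)) (ht : 1 ≤ t) (hF : FibB (t + 2) a n)
    (hρ : ρ < b.choose t) (hn : n ≤ 2 ^ L) (hρp : ρ ≤ p1) (δ : ℝ) :
    (cnt (fun x : Fin n → (Fin m → ZMod 2) => Null (t + 2) x ∧
      (∃ u v : Fin p → Fin n, Function.Injective (Sum.elim u v) ∧ PairR t ρ u v (rws J x) ∧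
        p1 ≤ nonsat t c (fun i => rws J x (u i)) (fun i => rws J x (v i))) ∧
      (1 / 2 - δ) * n ≤ finrank (ZMod 2) ↥((PP (J → ZMod 2) (t + 1)).map (pull (rws J x)))) : ℝ)
      ≤ P2 ((m : ℝ) * n / 2 + (m - J.card) * (δ * n) + J.card * ρ + J.card + (a + 2) * n
          + 2 * p * (L + 1) - (p1 - ρ) * ((J.card : ℝ) - c - 5 * b)) := by
  have h1 := rows_count37 t m n J δ (fun z => ∃ u v : Fin p → Fin n,
    Function.Injective (Sum.elim u v) ∧ PairR t ρ u v z ∧
    p1 ≤ nonsat t c (fun i => z (u i)) (fun i => z (v i)))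
  refine h1.trans ?_
  obtain ⟨j, hj⟩ : ∃ j, j = J.card := ⟨_, rfl⟩
  rw [← hj]
  have hV : Fintype.card (J → ZMod 2) = 2 ^ j := by rw [hj]; exact card_rows37 J
  have h2 : (cnt (fun z : Fin n → (J → ZMod 2) => Null (t + 2) z ∧ ∃ u v : Fin p → Fin n,
      Function.Injective (Sum.elim u v) ∧ PairR t ρ u v z ∧
      p1 ≤ nonsat t c (fun i => z (u i)) (fun i => z (v i))) : ℝ)
      ≤ ∑ D : (Fin p → Fin n) × (Fin p → Fin n) × Finset (Fin p) × Finset (Fin p),
        (cnt (fun z : Fin n → (J → ZMod 2) => QQ37 t c ρ (p1 - ρ) D.1 D.2.1 D.2.2.1 D.2.2.2 z) : ℝ) := by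
    have h3 := cnt_exists (fun (D : (Fin p → Fin n) × (Fin p → Fin n) × Finset (Fin p) × Finset (Fin p))
      (z : Fin n → (J → ZMod 2)) => QQ37 t c ρ (p1 - ρ) D.1 D.2.1 D.2.2.1 D.2.2.2 z)
    have h4 : cnt (fun z : Fin n → (J → ZMod 2) => Null (t + 2) z ∧ ∃ u v : Fin p → Fin n,
      Function.Injective (Sum.elim u v) ∧ PairR t ρ u v z ∧
      p1 ≤ nonsat t c (fun i => z (u i)) (fun i => z (v i))) ≤ cnt (fun z : Fin n → (J → ZMod 2) =>
        ∃ D : (Fin p → Fin n) × (Fin p → Fin n) × Finset (Fin p) × Finset (Fin p),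
        QQ37 t c ρ (p1 - ρ) D.1 D.2.1 D.2.2.1 D.2.2.2 z) := by
      refine cnt_mono fun z hz => ?_
      obtain ⟨hz1, u, v, huv, hP, hns⟩ := hz
      obtain ⟨T, B, hTB⟩ := exists_TB37 t c ρ p1 u v huv z hz1 hP hns
      exact ⟨(u, v, T, B), hTB⟩
    exact_mod_cast h4.trans h3
  have h4 : (Fintype.card ((Fin p → Fin n) × (Fin p → Fin n) × Finset (Fin p) × Finset (Fin p)) : ℝ)
      ≤ P2 (2 * p * (L + 1)) := by
    rw [Fintype.card_prod, Fintype.card_prod, Fintype.card_prod, Fintype.card_fun, Fintype.card_finset,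
      Fintype.card_fin, Fintype.card_fin]
    have h5 : n ^ p * (n ^ p * (2 ^ p * 2 ^ p)) ≤ 2 ^ (2 * p * (L + 1)) := by
      have h6 : n ^ p ≤ 2 ^ (L * p) := by
        rw [pow_mul]
        exact Nat.pow_le_pow_left hn p
      calc n ^ p * (n ^ p * (2 ^ p * 2 ^ p)) ≤ 2 ^ (L * p) * (2 ^ (L * p) * (2 ^ p * 2 ^ p)) :=
            Nat.mul_le_mul h6 (Nat.mul_le_mul_right _ h6)
        _ = 2 ^ (2 * p * (L + 1)) := by
            rw [← pow_add, ← pow_add, ← pow_add]
            congr 1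
            ring
    have h6 : ((n ^ p * (n ^ p * (2 ^ p * 2 ^ p)) : ℕ) : ℝ) ≤ ((2 ^ (2 * p * (L + 1)) : ℕ) : ℝ) := by
      exact_mod_cast h5
    refine h6.trans (le_of_eq ?_)
    rw [Nat.cast_pow, Nat.cast_ofNat, P2_nat]
    congr 1
    push_cast
    ring
  have h5 : ∑ D : (Fin p → Fin n) × (Fin p → Fin n) × Finset (Fin p) × Finset (Fin p),
        (cnt (fun z : Fin n → (J → ZMod 2) => QQ37 t c ρ (p1 - ρ) D.1 D.2.1 D.2.2.1 D.2.2.2 z) : ℝ)
      ≤ P2 (2 * p * (L + 1)) * P2 ((j : ℝ) * ρ + j + (j : ℝ) * n / 2 + (a + 2) * n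
      - (p1 - ρ) * ((j : ℝ) - c - 5 * b)) := by
    refine (Finset.sum_le_card_nsmul _ _ _ fun D _ =>
      cnt_QQ37 (V := J → ZMod 2) t a b c ρ p1 p j n ht hF hρ hρp hV D.1 D.2.1 D.2.2.1 D.2.2.2).trans ?_
    rw [nsmul_eq_mul, Finset.card_univ]
    exact mul_le_mul_of_nonneg_right h4 (P2_pos _).le
  refine (mul_le_mul_of_nonneg_right (h2.trans h5) (P2_pos _).le).trans ?_
  rw [← P2_add, ← P2_add]
  apply P2_mono
  apply le_of_eq
  ring

end RMH
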