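import Pool.Agent.Helper37.RM.LinB
import Pool.Agent.RMX.Base44

/-! Stage 5: common definitions of the rare classes (helper37); FibB and rws are in RMX/Base44 -/

set_option autoImplicit false
set_option linter.unusedSectionVars false

open scoped BigOperators
open Classical Module

namespace RMH

/-- at least `p0` points on which the functions of degree `≤ t` have rank `≤ ρ` -/
def KillC {ι V : Type} [AddCommGroup V] [Module (ZMod 2) V] (t ρ p0 : ℕ) (z : ι → V) : Prop :=
  ∃ Ω : Finset ι, p0 ≤ Ω.card ∧ finrank (ZMod 2) ↥((PP V t).map (pull (fun i : Ω => z i))) ≤ ρ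

/-- the pairs `z (u b), z (v b)` have difference functionals of rank `≤ ρ` in degree `≤ t` -/
def PairR {ι V : Type} [AddCommGroup V] [Module (ZMod 2) V] {p : ℕ} (t ρ : ℕ) (u v : Fin p → ι)
    (z : ι → V) : Prop :=
  finrank (ZMod 2) ↥((PP V t).map (dif (fun b => z (u b)) (fun b => z (v b)))) ≤ ρ

/-- the functions of degree `≤ t` which do not separate the pairs -/
def ZZ {V β : Type} [AddCommGroup V] [Module (ZMod 2) V] (t : ℕ) (x y : β → V) :
    Submodule (ZMod 2) (V → ZMod 2) := PP V t ⊓ LinearMap.ker (dif x y)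

lemma mem_ZZ {V β : Type} [AddCommGroup V] [Module (ZMod 2) V] {t : ℕ} {x y : β → V}
    {f : V → ZMod 2} : f ∈ ZZ t x y ↔ f ∈ PP V t ∧ ∀ b, f (x b) = f (y b) := by
  unfold ZZ
  rw [Submodule.mem_inf, LinearMap.mem_ker]
  have h : ∀ a b : ZMod 2, a + b = 0 ↔ a = b := by decide
  constructor
  · rintro ⟨h1, h2⟩
    exact ⟨h1, fun b => (h _ _).1 (congrFun h2 b)⟩
  · rintro ⟨h1, h2⟩
    exact ⟨h1, funext fun b => (h _ _).2 (h2 b)⟩

/-- the number of pairs with non saturated difference -/
noncomputable def nonsat {V : Type} [AddCommGroup V] [Module (ZMod 2) V] [Fintype V] {p : ℕ}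
    (t c : ℕ) (x y : Fin p → V) : ℕ :=
  (Finset.univ.filter (fun b : Fin p =>
    (Finset.univ.filter (fun w : V => ∀ f ∈ ZZ t x y, f w = f (w + (x b + y b)))).card < 2 ^ c)).card

end RMH
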