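import Pool.Agent.Helper44.HO.Pull
import Pool.Agent.Helper71.HO.Hilb

/-! Stage 5, linear algebra: few unseparated differences (helper37) -/

set_option autoImplicit false
set_option linter.unusedSectionVars false

open scoped BigOperators
open Classical Module

namespace RMH

/-- the differences of a function along a family of pairs -/
def dif {β V : Type} (x y : β → V) : (V → ZMod 2) →ₗ[ZMod 2] (β → ZMod 2) := pull x + pull y

lemma dif_apply {β V : Type} (x y : β → V) (p : V → ZMod 2) (i : β) :
    dif x y p i = p (x i) + p (y i) := rfl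

section Gen37

variable {X Y Z : Type} [Fintype X] [Fintype Y] [Fintype Z]

lemma codim_rank37 (Φ : (X → ZMod 2) →ₗ[ZMod 2] (Y → ZMod 2))
    (N P : Submodule (ZMod 2) (X → ZMod 2)) (hN : N ≤ P) (hk : ∀ p ∈ N, Φ p = 0) :
    finrank (ZMod 2) ↥(P.map Φ) + finrank (ZMod 2) N ≤ finrank (ZMod 2) P := by
  have h1 := finrank_map_add Φ P
  have h2 : N ≤ P ⊓ LinearMap.ker Φ := le_inf hN (fun p hp => LinearMap.mem_ker.2 (hk p hp))
  have h3 := Submodule.finrank_mono h2
  omega

lemma rank_le_of_ker37 (Φ : (X → ZMod 2) →ₗ[ZMod 2] (Y → ZMod 2))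
    (Ψ : (X → ZMod 2) →ₗ[ZMod 2] (Z → ZMod 2)) (P : Submodule (ZMod 2) (X → ZMod 2))
    (hk : ∀ p ∈ P, Φ p = 0 → Ψ p = 0) :
    finrank (ZMod 2) ↥(P.map Ψ) ≤ finrank (ZMod 2) ↥(P.map Φ) := by
  have h1 := finrank_map_add Φ P
  have h4 := finrank_map_add Ψ P
  have h2 : P ⊓ LinearMap.ker Φ ≤ P ⊓ LinearMap.ker Ψ := by
    intro p hp
    exact ⟨hp.1, LinearMap.mem_ker.2 (hk p hp.1 (LinearMap.mem_ker.1 hp.2))⟩
  have h3 := Submodule.finrank_mono h2
  omega

end Gen37

section A37

variable {V : Type} [AddCommGroup V] [Module (ZMod 2) V] [Fintype V]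

/-- (A0) the points killed by a subspace of small codimension -/
theorem killed37 (t a : ℕ) (N : Submodule (ZMod 2) (V → ZMod 2)) (hN : N ≤ PP V t)
    (hc : finrank (ZMod 2) (PP V t) < finrank (ZMod 2) N + (a - t).choose t) :
    (Finset.univ.filter (fun x : V => ∀ p ∈ N, p x = 0)).card < 2 ^ a := by
  by_contra hcon
  push Not at hcon
  have h1 := hilbert (Aff V) one_mem_Aff (fun i j hij => Aff_sep i j hij) t a _ hcon
  have h2 := codim_rank37 (mulC (Finset.univ.filter (fun x : V => ∀ p ∈ N, p x = 0))) N (PP V t) hN (by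
    intro p hp
    funext x
    rw [mulC_apply]
    split_ifs with hx
    · exact (Finset.mem_filter.1 hx).2 p hp
    · rfl)
  have h3 : (PP V t) = (Aff V) ^ t := rfl
  rw [h3] at h2 hc
  omega

variable {β : Type} [Fintype β]

lemma zmod2_mul37 (a : ZMod 2) (ha : a ≠ 0) : a = 1 := by
  revert ha
  revert a
  decide

/-- translation count: the fibre over a value which is attained is large -/
lemma card_fiber37 (G : Type) [AddCommGroup G] [Fintype G] (f : G →+ ZMod 2 × ZMod 2 × ZMod 2)
    (w : ZMod 2 × ZMod 2 × ZMod 2) (hw : w ∈ Set.range f) :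
    Fintype.card G ≤ 8 * (Finset.univ.filter (fun g : G => f g = w)).card := by
  have h1 : (Finset.univ : Finset G).card = ∑ b ∈ (Finset.univ : Finset (ZMod 2 × ZMod 2 × ZMod 2)),
      ((Finset.univ : Finset G).filter (fun g => f g = b)).card :=
    Finset.card_eq_sum_card_fiberwise (fun g _ => Finset.mem_coe.2 (Finset.mem_univ _))
  rw [← Finset.card_univ, h1]
  have h2 : ∀ b ∈ (Finset.univ : Finset (ZMod 2 × ZMod 2 × ZMod 2)),
      ((Finset.univ : Finset G).filter (fun g => f g = b)).card
        ≤ (Finset.univ.filter (fun g : G => f g = w)).card := by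
    intro b _
    by_cases hb : b ∈ Set.range f
    · exact (AddMonoidHom.card_fiber_eq_of_mem_range f hb hw).le
    · have : (Finset.univ : Finset G).filter (fun g => f g = b) = ∅ := by
        rw [Finset.filter_eq_empty_iff]
        intro g _ hg
        exact hb ⟨g, hg⟩
      rw [this, Finset.card_empty]
      exact Nat.zero_le _
  refine (Finset.sum_le_sum h2).trans ?_
  rw [Finset.sum_const, smul_eq_mul]
  refine Nat.mul_le_mul_right _ ?_
  decide

/-- the cut for differences -/
lemma dif_cut37 (x y : β → V) (t : ℕ) (l : Dual (ZMod 2) V) (E E0 E1 : Finset β) (h0 : E0 ⊆ E) (h1 : E1 ⊆ E)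
    (hl0 : ∀ i ∈ E0, l (x i) = 0 ∧ l (y i) = 0) (hl1 : ∀ i ∈ E1, l (x i) = 1 ∧ l (y i) = 1) :
    finrank (ZMod 2) ↥((PP V (t + 1)).map (mulC E0 ∘ₗ dif x y))
      + finrank (ZMod 2) ↥((PP V t).map (mulC E1 ∘ₗ dif x y))
      ≤ finrank (ZMod 2) ↥((PP V (t + 1)).map (mulC E ∘ₗ dif x y)) := by
  have hdis : ∀ i, i ∈ E0 → i ∉ E1 := by
    intro i hi hi1
    have := (hl0 i hi).1
    rw [(hl1 i hi1).1] at this
    exact absurd this (by decide)
  set A := (PP V (t + 1)).map (mulC (E0 ∪ E1) ∘ₗ dif x y) with hA
  have e1 := finrank_map_add (mulC E0) A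
  have e2 : A.map (mulC E0) = (PP V (t + 1)).map (mulC E0 ∘ₗ dif x y) := by
    rw [hA, ← Submodule.map_comp]
    congr 1
    apply LinearMap.ext
    intro p
    funext i
    show (if i ∈ E0 then (if i ∈ E0 ∪ E1 then dif x y p i else 0) else 0) = (if i ∈ E0 then dif x y p i else 0)
    by_cases hi : i ∈ E0
    · rw [if_pos hi, if_pos hi, if_pos (Finset.mem_union_left _ hi)]
    · rw [if_neg hi, if_neg hi]
  have e3 : (PP V t).map (mulC E1 ∘ₗ dif x y) ≤ A ⊓ LinearMap.ker (mulC E0) := by
    rintro _ ⟨p, hp, rfl⟩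
    refine ⟨?_, ?_⟩
    · refine ⟨(fun v => l v) * p, ?_, ?_⟩
      · have := mul_mem_PP (r := 1) (s := t) (by rw [PP_one]; exact dual_mem_Aff44 l) hp
        rwa [add_comm 1 t] at this
      · funext i
        show (if i ∈ E0 ∪ E1 then dif x y ((fun v => l v) * p) i else 0)
          = (if i ∈ E1 then dif x y p i else 0)
        rw [dif_apply, dif_apply, Pi.mul_apply, Pi.mul_apply]
        by_cases hi : i ∈ E0
        · rw [if_pos (Finset.mem_union_left _ hi), if_neg (hdis i hi), (hl0 i hi).1, (hl0 i hi).2,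
            zero_mul, zero_mul, add_zero]
        · by_cases hi1 : i ∈ E1
          · rw [if_pos (Finset.mem_union_right _ hi1), if_pos hi1, (hl1 i hi1).1, (hl1 i hi1).2,
              one_mul, one_mul]
          · rw [if_neg (fun h => (Finset.mem_union.1 h).elim hi hi1), if_neg hi1]
    · rw [SetLike.mem_coe, LinearMap.mem_ker]
      funext i
      show (if i ∈ E0 then (if i ∈ E1 then dif x y p i else 0) else 0) = 0
      by_cases hi : i ∈ E0
      · rw [if_pos hi, if_neg (hdis i hi)]
      · rw [if_neg hi]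
  have e4 := Submodule.finrank_mono e3
  have e5 : finrank (ZMod 2) A ≤ finrank (ZMod 2) ↥((PP V (t + 1)).map (mulC E ∘ₗ dif x y)) := by
    rw [hA]
    apply rank_le_of_ker37
    intro p _ hp
    funext i
    have h2 := congrFun hp i
    have h3 : (if i ∈ E then dif x y p i else 0) = 0 := h2
    show (if i ∈ E0 ∪ E1 then dif x y p i else 0) = 0
    by_cases hi : i ∈ E0 ∪ E1
    · rw [if_pos hi]
      rw [if_pos ((Finset.mem_union.1 hi).elim (fun h => h0 h) (fun h => h1 h))] at h3
      exact h3
    · rw [if_neg hi]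
  rw [e2] at e1
  omega

/-- the star case -/
lemma star37 (x y : β → V) (t a : ℕ) (E S : Finset β) (hS : S ⊆ E) (w : V) (d : β → V)
    (hd : Function.Injective d) (hw : ∀ j ∈ S, (x j = w ∧ y j = w + d j) ∨ (y j = w ∧ x j = w + d j))
    (hc : 2 ^ a ≤ S.card) :
    (a - t).choose t ≤ finrank (ZMod 2) ↥((PP V t).map (mulC E ∘ₗ dif x y)) + 1 := by
  set C := S.image (fun j => w + d j) with hC
  have hCc : C.card = S.card :=
    Finset.card_image_of_injective _ (fun i j h => hd (add_left_cancel h))
  have h1 := hilbert (Aff V) one_mem_Aff (fun i j hij => Aff_sep i j hij) t a C (by rw [hCc]; exact hc)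
  set Ψ : (V → ZMod 2) →ₗ[ZMod 2] (β → ZMod 2) := mulC S ∘ₗ pull (fun j => w + d j) with hΨ
  have h2 : finrank (ZMod 2) ↥((PP V t).map (mulC C)) ≤ finrank (ZMod 2) ↥((PP V t).map Ψ) := by
    apply rank_le_of_ker37
    intro p _ hp
    funext v
    rw [mulC_apply]
    split_ifs with hv
    · obtain ⟨j, hj, rfl⟩ := Finset.mem_image.1 hv
      have h3 := congrFun hp j
      have h4 : (if j ∈ S then p (w + d j) else 0) = 0 := h3
      rw [if_pos hj] at h4
      exact h4
    · rfl
  have h3 : (PP V t).map Ψ ≤ (PP V t).map (mulC S ∘ₗ dif x y)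
      ⊔ Submodule.span (ZMod 2) {(fun j => if j ∈ S then 1 else 0 : β → ZMod 2)} := by
    rintro _ ⟨p, hp, rfl⟩
    have h4 : Ψ p = (mulC S ∘ₗ dif x y) p + (p w) • (fun j => if j ∈ S then 1 else 0 : β → ZMod 2) := by
      funext j
      show (if j ∈ S then p (w + d j) else 0) = (if j ∈ S then dif x y p j else 0) + p w * (if j ∈ S then 1 else 0)
      by_cases hj : j ∈ S
      · rw [if_pos hj, if_pos hj, if_pos hj, dif_apply, mul_one]
        have h2 : ∀ a b : ZMod 2, b = a + b + a := by decide
        have h2' : ∀ a b : ZMod 2, b = b + a + a := by decide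
        rcases hw j hj with ⟨ha, hb⟩ | ⟨ha, hb⟩
        · rw [ha, hb]
          exact h2 _ _
        · rw [ha, hb]
          exact h2' _ _
      · rw [if_neg hj, if_neg hj, if_neg hj, mul_zero, add_zero]
    rw [h4]
    exact Submodule.add_mem_sup (Submodule.mem_map_of_mem hp)
      (Submodule.smul_mem _ _ (Submodule.mem_span_singleton_self _))
  have h4 := Submodule.finrank_mono h3
  have h5 := Submodule.finrank_add_le_finrank_add_finrank ((PP V t).map (mulC S ∘ₗ dif x y))
    (Submodule.span (ZMod 2) {(fun j => if j ∈ S then 1 else 0 : β → ZMod 2)})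
  have h6 : finrank (ZMod 2) ↥(Submodule.span (ZMod 2)
      {(fun j => if j ∈ S then 1 else 0 : β → ZMod 2)}) ≤ 1 :=
    (finrank_span_le_card _).trans (by rw [Set.toFinset_singleton, Finset.card_singleton])
  have h7 : finrank (ZMod 2) ↥((PP V t).map (mulC S ∘ₗ dif x y))
      ≤ finrank (ZMod 2) ↥((PP V t).map (mulC E ∘ₗ dif x y)) := by
    apply rank_le_of_ker37
    intro p _ hp
    funext i
    have h2 := congrFun hp i
    have h3 : (if i ∈ E then dif x y p i else 0) = 0 := h2
    show (if i ∈ S then dif x y p i else 0) = 0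
    by_cases hi : i ∈ S
    · rw [if_pos hi]
      rw [if_pos (hS hi)] at h3
      exact h3
    · rw [if_neg hi]
  have h8 : (PP V t) = (Aff V) ^ t := rfl
  rw [← h8] at h1
  omega

/-- the case `t = 1` -/
lemma base37 (x d : β → V) (hd : Function.Injective d) (b : ℕ) (E : Finset β) (hE : 2 ^ b ≤ E.card) :
    b ≤ finrank (ZMod 2) ↥((PP V 1).map (mulC E ∘ₗ dif x (fun i => x i + d i))) := by
  set S : Submodule (ZMod 2) V := Submodule.span (ZMod 2) (d '' E) with hS
  -- the span is large
  have h1 : 2 ^ b ≤ 2 ^ finrank (ZMod 2) S := by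
    refine hE.trans ?_
    have h2 := Module.card_eq_pow_finrank (K := ZMod 2) (V := S)
    rw [ZMod.card] at h2
    rw [← h2, ← Finset.card_image_of_injective E hd, ← Fintype.card_coe]
    refine Fintype.card_le_of_injective (fun v : (E.image d : Finset V) => (⟨v, ?_⟩ : S)) ?_
    · apply Submodule.subset_span
      obtain ⟨i, hi, hiv⟩ := Finset.mem_image.1 v.2
      exact ⟨i, hi, hiv⟩
    · intro u v huv
      exact Subtype.ext (congrArg (fun z : S => (z : V)) huv)
  have h2 : b ≤ finrank (ZMod 2) S := (Nat.pow_le_pow_iff_right (by norm_num)).1 h1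
  -- the map from the dual space
  set f : Dual (ZMod 2) V →ₗ[ZMod 2] (β → ZMod 2) :=
    { toFun := fun l i => if i ∈ E then l (d i) else 0
      map_add' := fun l l' => by
        funext i
        show (if i ∈ E then l (d i) + l' (d i) else 0) = (if i ∈ E then l (d i) else 0) + (if i ∈ E then l' (d i) else 0)
        split_ifs
        · rfl
        · rw [add_zero]
      map_smul' := fun a l => by
        funext i
        show (if i ∈ E then a * l (d i) else 0) = a * (if i ∈ E then l (d i) else 0)
        split_ifs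
        · rfl
        · rw [mul_zero] } with hf
  have h3 : LinearMap.ker f = S.dualAnnihilator := by
    ext l
    rw [LinearMap.mem_ker, Submodule.mem_dualAnnihilator]
    constructor
    · intro h v hv
      have h4 : S ≤ LinearMap.ker l := by
        rw [hS, Submodule.span_le]
        rintro _ ⟨i, hi, rfl⟩
        have h5 := congrFun h i
        have h6 : (if i ∈ E then l (d i) else 0) = 0 := h5
        rw [if_pos (Finset.mem_coe.1 hi)] at h6
        exact h6
      exact h4 hv
    · intro h
      funext i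
      show (if i ∈ E then l (d i) else 0) = 0
      split_ifs with hi
      · exact h _ (Submodule.subset_span ⟨i, Finset.mem_coe.2 hi, rfl⟩)
      · rfl
  have h4 := LinearMap.finrank_range_add_finrank_ker f
  rw [h3] at h4
  have h5 := Subspace.finrank_add_finrank_dualAnnihilator_eq S
  rw [Subspace.dual_finrank_eq] at h4
  have h6 : LinearMap.range f ≤ (PP V 1).map (mulC E ∘ₗ dif x (fun i => x i + d i)) := by
    rintro _ ⟨l, rfl⟩
    refine ⟨fun v => l v, ?_, ?_⟩
    · rw [PP_one]
      exact dual_mem_Aff44 l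
    · funext i
      show (if i ∈ E then l (x i) + l (x i + d i) else 0) = (if i ∈ E then l (d i) else 0)
      have : l (x i) + l (x i + d i) = l (d i) := by
        rw [map_add, ← add_assoc]
        have h : ∀ a b : ZMod 2, a + a + b = b := by decide
        exact h _ _
      rw [this]
  have h7 := Submodule.finrank_mono h6
  omega

/-- a good cut, when most pairs of edges are disjoint -/
lemma exists_dcut37 (x d : β → V) (E : Finset β)
    (hg : E.card * E.card ≤ 2 * ((E ×ˢ E).filter
      (fun p => x p.1 + x p.2 ∉ Submodule.span (ZMod 2) {d p.1, d p.2})).card) :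
    ∃ l : Dual (ZMod 2) V, E.card ≤ 32 * (E.filter (fun i => l (d i) = 0 ∧ l (x i) = 0)).card ∧
      E.card ≤ 32 * (E.filter (fun i => l (d i) = 0 ∧ l (x i) = 1)).card := by
  have : Fintype (Dual (ZMod 2) V) := Fintype.ofFinite _
  set g : β × β → Prop := fun p => x p.1 + x p.2 ∉ Submodule.span (ZMod 2) {d p.1, d p.2} with hgdef
  set good := (E ×ˢ E).filter g with hgood
  set R : Dual (ZMod 2) V → β × β → Prop := fun l p => l (d p.1) = 0 ∧ l (d p.2) = 0 ∧ l (x p.1) ≠ l (x p.2)
    with hR
  have h1 : ∀ p ∈ good, Fintype.card (Dual (ZMod 2) V) ≤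
      8 * (Finset.univ.filter (fun l : Dual (ZMod 2) V => R l p)).card := by
    intro p hp
    have hp2 : x p.1 + x p.2 ∉ Submodule.span (ZMod 2) {d p.1, d p.2} := (Finset.mem_filter.1 hp).2
    obtain ⟨l, hl, hl2⟩ := Submodule.exists_dual_map_eq_bot_of_notMem hp2 inferInstance
    have hl3 : ∀ v ∈ Submodule.span (ZMod 2) {d p.1, d p.2}, l v = 0 := by
      intro v hv
      have : l v ∈ (Submodule.span (ZMod 2) {d p.1, d p.2}).map l := ⟨v, hv, rfl⟩
      rw [hl2] at this
      exact (Submodule.mem_bot _).1 this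
    set F : Dual (ZMod 2) V →+ ZMod 2 × ZMod 2 × ZMod 2 :=
      { toFun := fun l => (l (d p.1), l (d p.2), l (x p.1 + x p.2))
        map_zero' := rfl
        map_add' := fun _ _ => rfl } with hF
    have h2 := card_fiber37 (Dual (ZMod 2) V) F (0, 0, 1) ⟨l, by
      refine Prod.ext (hl3 _ (Submodule.subset_span (Set.mem_insert _ _))) (Prod.ext
        (hl3 _ (Submodule.subset_span (Set.mem_insert_of_mem _ rfl))) (zmod2_mul37 _ hl))⟩
    refine h2.trans (Nat.mul_le_mul_left _ (Finset.card_le_card ?_))
    intro l' hl'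
    have h3 := (Finset.mem_filter.1 hl').2
    refine Finset.mem_filter.2 ⟨Finset.mem_univ _, ?_, ?_, ?_⟩
    · exact congrArg Prod.fst h3
    · exact congrArg (fun q => q.2.1) h3
    · have h4 : l' (x p.1 + x p.2) = 1 := congrArg (fun q => q.2.2) h3
      rw [map_add] at h4
      intro h5
      rw [h5] at h4
      have : ∀ a : ZMod 2, a + a ≠ 1 := by decide
      exact this _ h4
  -- double counting
  have h2 : good.card * Fintype.card (Dual (ZMod 2) V)
      ≤ ∑ l : Dual (ZMod 2) V, 8 * ((E ×ˢ E).filter (fun p => R l p)).card := by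
    calc good.card * Fintype.card (Dual (ZMod 2) V)
        = ∑ p ∈ good, Fintype.card (Dual (ZMod 2) V) := by rw [Finset.sum_const, smul_eq_mul]
      _ ≤ ∑ p ∈ good, 8 * (Finset.univ.filter (fun l : Dual (ZMod 2) V => R l p)).card :=
          Finset.sum_le_sum h1
      _ = ∑ p ∈ good, ∑ l : Dual (ZMod 2) V, (if R l p then 8 else 0) := by
          refine Finset.sum_congr rfl fun p _ => ?_
          rw [← Finset.sum_filter, Finset.sum_const, smul_eq_mul, mul_comm]
      _ = ∑ l : Dual (ZMod 2) V, ∑ p ∈ good, (if R l p then 8 else 0) := Finset.sum_comm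
      _ ≤ ∑ l : Dual (ZMod 2) V, ∑ p ∈ E ×ˢ E, (if R l p then 8 else 0) := by
          refine Finset.sum_le_sum fun l _ => ?_
          exact Finset.sum_le_sum_of_subset (Finset.filter_subset _ _)
      _ = ∑ l : Dual (ZMod 2) V, 8 * ((E ×ˢ E).filter (fun p => R l p)).card := by
          refine Finset.sum_congr rfl fun l _ => ?_
          rw [← Finset.sum_filter, Finset.sum_const, smul_eq_mul, mul_comm]
  obtain ⟨l, hl⟩ : ∃ l : Dual (ZMod 2) V, good.card ≤ 8 * ((E ×ˢ E).filter (fun p => R l p)).card := by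
    by_contra hcon
    push Not at hcon
    have h3 := Finset.sum_lt_sum_of_nonempty (s := (Finset.univ : Finset (Dual (ZMod 2) V)))
      ⟨0, Finset.mem_univ _⟩ (fun l _ => hcon l)
    rw [Finset.sum_const, Finset.card_univ, smul_eq_mul, mul_comm] at h3
    exact absurd (lt_of_le_of_lt h2 h3) (lt_irrefl _)
  set S0 := E.filter (fun i => l (d i) = 0 ∧ l (x i) = 0) with hS0
  set S1 := E.filter (fun i => l (d i) = 0 ∧ l (x i) = 1) with hS1
  have h3 : (E ×ˢ E).filter (fun p => R l p) ⊆ (S0 ×ˢ S1) ∪ (S1 ×ˢ S0) := by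
    intro p hp
    obtain ⟨hp1, ha, hb, hc⟩ := Finset.mem_filter.1 hp
    obtain ⟨hE1, hE2⟩ := Finset.mem_product.1 hp1
    have hz : ∀ a b : ZMod 2, a ≠ b → (a = 0 ∧ b = 1) ∨ (a = 1 ∧ b = 0) := by decide
    rcases hz _ _ hc with ⟨h1, h2⟩ | ⟨h1, h2⟩
    · exact Finset.mem_union_left _ (Finset.mem_product.2 ⟨Finset.mem_filter.2 ⟨hE1, ha, h1⟩,
        Finset.mem_filter.2 ⟨hE2, hb, h2⟩⟩)
    · exact Finset.mem_union_right _ (Finset.mem_product.2 ⟨Finset.mem_filter.2 ⟨hE1, ha, h1⟩,
        Finset.mem_filter.2 ⟨hE2, hb, h2⟩⟩)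
  have h4 := (Finset.card_le_card h3).trans (Finset.card_union_le _ _)
  rw [Finset.card_product, Finset.card_product] at h4
  have h5 : S0.card ≤ E.card := Finset.card_le_card (Finset.filter_subset _ _)
  have h6 : S1.card ≤ E.card := Finset.card_le_card (Finset.filter_subset _ _)
  have h7 : E.card * E.card ≤ 32 * (S0.card * S1.card) := by
    have e1 : S1.card * S0.card = S0.card * S1.card := mul_comm _ _
    have e2 : E.card * E.card ≤ 2 * good.card := hg
    omega
  refine ⟨l, ?_, ?_⟩
  · by_contra hcon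
    push Not at hcon
    have h8 : 32 * (S0.card * S1.card) ≤ 32 * S0.card * E.card := by
      rw [mul_assoc]
      exact Nat.mul_le_mul_left _ (Nat.mul_le_mul_left _ h6)
    have h9 : 32 * S0.card * E.card < E.card * E.card := by
      refine Nat.mul_lt_mul_of_pos_right hcon ?_
      omega
    omega
  · by_contra hcon
    push Not at hcon
    have h8 : 32 * (S0.card * S1.card) ≤ 32 * S1.card * E.card := by
      rw [mul_comm S0.card, mul_assoc]
      exact Nat.mul_le_mul_left _ (Nat.mul_le_mul_left _ h5)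
    have h9 : 32 * S1.card * E.card < E.card * E.card := by
      refine Nat.mul_lt_mul_of_pos_right hcon ?_
      omega
    omega

/-- a large star, when many pairs of edges meet -/
lemma exists_star37 (x d : β → V) (E : Finset β)
    (hg : 2 * ((E ×ˢ E).filter
      (fun p => x p.1 + x p.2 ∉ Submodule.span (ZMod 2) {d p.1, d p.2})).card < E.card * E.card) :
    ∃ w : V, E.card ≤ 4 * (E.filter (fun j => x j = w ∨ x j + d j = w)).card := by
  set bad : β → β → Prop := fun i j => x i + x j ∈ Submodule.span (ZMod 2) {d i, d j} with hbad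
  have h1 : ∑ i ∈ E, (E.filter (fun j => bad i j)).card + ((E ×ˢ E).filter
      (fun p => x p.1 + x p.2 ∉ Submodule.span (ZMod 2) {d p.1, d p.2})).card = E.card * E.card := by
    rw [← Finset.card_product]
    have h2 := Finset.card_filter_add_card_filter_not (s := E ×ˢ E)
      (fun p : β × β => bad p.1 p.2)
    rw [← h2]
    congr 1
    rw [Finset.card_filter, Finset.sum_product]
    refine Finset.sum_congr rfl fun i _ => ?_
    rw [Finset.card_filter]
  obtain ⟨i, hi, hi2⟩ : ∃ i ∈ E, E.card ≤ 2 * (E.filter (fun j => bad i j)).card := by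
    by_contra hcon
    push Not at hcon
    have h2 : ∑ i ∈ E, 2 * (E.filter (fun j => bad i j)).card ≤ ∑ i ∈ E, E.card :=
      Finset.sum_le_sum fun i hi => (hcon i hi).le
    rw [← Finset.mul_sum, Finset.sum_const, smul_eq_mul] at h2
    omega
  have h2 : E.filter (fun j => bad i j) ⊆ (E.filter (fun j => x j = x i ∨ x j + d j = x i)) ∪
      (E.filter (fun j => x j = x i + d i ∨ x j + d j = x i + d i)) := by
    intro j hj
    obtain ⟨hjE, hj2⟩ := Finset.mem_filter.1 hj
    obtain ⟨r, s, hrs⟩ := Submodule.mem_span_pair.1 hj2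
    have hneg : ∀ v : V, v + v = 0 := fun v => by
      have : (2 : ZMod 2) • v = 0 := by
        have h : (2 : ZMod 2) = 0 := rfl
        rw [h, zero_smul]
      rw [← two_smul (ZMod 2) v]
      exact this
    have hx : x j = x i + (r • d i + s • d j) := by
      rw [hrs, ← add_assoc, hneg, zero_add]
    rcases RMC.zmod2_cases r with hr | hr <;> rcases RMC.zmod2_cases s with hs | hs
    · refine Finset.mem_union_left _ (Finset.mem_filter.2 ⟨hjE, Or.inl ?_⟩)
      rw [hx, hr, hs, zero_smul, zero_smul, add_zero, add_zero]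
    · refine Finset.mem_union_left _ (Finset.mem_filter.2 ⟨hjE, Or.inr ?_⟩)
      rw [hx, hr, hs, zero_smul, one_smul, zero_add, add_assoc, hneg, add_zero]
    · refine Finset.mem_union_right _ (Finset.mem_filter.2 ⟨hjE, Or.inl ?_⟩)
      rw [hx, hr, hs, zero_smul, one_smul, add_zero]
    · refine Finset.mem_union_right _ (Finset.mem_filter.2 ⟨hjE, Or.inr ?_⟩)
      rw [hx, hr, hs, one_smul, one_smul, ← add_assoc, add_assoc _ (d j), hneg, add_zero]
  have h3 := (Finset.card_le_card h2).trans (Finset.card_union_le _ _)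
  rcases le_total (E.filter (fun j => x j = x i ∨ x j + d j = x i)).card
    (E.filter (fun j => x j = x i + d i ∨ x j + d j = x i + d i)).card with h4 | h4
  · exact ⟨x i + d i, by omega⟩
  · exact ⟨x i, by omega⟩

/-- (A), for finsets -/
theorem claimA_aux37 (x d : β → V) (hd : Function.Injective d) (t : ℕ) :
    ∀ (b : ℕ) (E : Finset β), 2 ^ (5 * b) ≤ E.card →
      b.choose (t + 1) ≤ finrank (ZMod 2) ↥((PP V (t + 1)).map (mulC E ∘ₗ dif x (fun i => x i + d i))) := by
  induction t with
  | zero =>
    intro b E hE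
    rw [zero_add, Nat.choose_one_right]
    refine base37 x d hd b E (le_trans ?_ hE)
    exact Nat.pow_le_pow_right (by norm_num) (by omega)
  | succ t iht =>
    intro b
    induction b with
    | zero =>
      intro E _
      rw [Nat.choose_eq_zero_of_lt (by omega)]
      exact Nat.zero_le _
    | succ b ihb =>
      intro E hE
      by_cases hb : b + 1 < t + 1 + 1
      · rw [Nat.choose_eq_zero_of_lt (by omega)]
        exact Nat.zero_le _
      push Not at hb
      have h32 : 2 ^ (5 * (b + 1)) = 32 * 2 ^ (5 * b) := by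
        rw [mul_add, pow_add]
        ring
      by_cases hg : E.card * E.card ≤ 2 * ((E ×ˢ E).filter
          (fun p => x p.1 + x p.2 ∉ Submodule.span (ZMod 2) {d p.1, d p.2})).card
      · obtain ⟨l, hl0, hl1⟩ := exists_dcut37 x d E hg
        have h1 := ihb (E.filter (fun i => l (d i) = 0 ∧ l (x i) = 0)) (by omega)
        have h2 := iht b (E.filter (fun i => l (d i) = 0 ∧ l (x i) = 1)) (by omega)
        have h3 := dif_cut37 x (fun i => x i + d i) (t + 1) l E
          (E.filter (fun i => l (d i) = 0 ∧ l (x i) = 0)) (E.filter (fun i => l (d i) = 0 ∧ l (x i) = 1))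
          (Finset.filter_subset _ _) (Finset.filter_subset _ _) (fun i hi => by
            obtain ⟨_, ha, hb⟩ := Finset.mem_filter.1 hi
            exact ⟨hb, by rw [map_add, ha, hb, add_zero]⟩) (fun i hi => by
            obtain ⟨_, ha, hb⟩ := Finset.mem_filter.1 hi
            exact ⟨hb, by rw [map_add, ha, hb, add_zero]⟩)
        have h4 : (b + 1).choose (t + 1 + 1) = b.choose (t + 1) + b.choose (t + 1 + 1) :=
          Nat.choose_succ_succ _ _
        omega
      · push Not at hg
        obtain ⟨w, hw⟩ := exists_star37 x d E hg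
        have h0 : ∀ v : V, v + v = 0 := fun v => by
          have h : (2 : ZMod 2) = 0 := rfl
          rw [← two_smul (ZMod 2) v, h, zero_smul]
        have h1 := star37 x (fun i => x i + d i) (t + 1 + 1) (5 * b + 3) E
          (E.filter (fun j => x j = w ∨ x j + d j = w)) (Finset.filter_subset _ _) w d hd (by
            intro j hj
            rcases (Finset.mem_filter.1 hj).2 with h | h
            · left
              exact ⟨h, by rw [h]⟩
            · right
              refine ⟨h, ?_⟩
              rw [← h, add_assoc, h0, add_zero]) (by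
            have : 2 ^ (5 * b + 3) = 8 * 2 ^ (5 * b) := by rw [pow_add]; ring
            omega)
        have h2 : (b + 2).choose (t + 1 + 1) ≤ (5 * b + 3 - (t + 1 + 1)).choose (t + 1 + 1) :=
          Nat.choose_le_choose _ (by omega)
        have h3 : (b + 2).choose (t + 1 + 1) = (b + 1).choose (t + 1) + (b + 1).choose (t + 1 + 1) :=
          Nat.choose_succ_succ _ _
        have h4 : 0 < (b + 1).choose (t + 1) := Nat.choose_pos (by omega)
        omega

/-- (A) distinct differences: the functionals `p ↦ p (x i) + p (x i + d i)` have large rank -/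
theorem claimA37 (t b : ℕ) (ht : 1 ≤ t) (x d : β → V)
    (hd : Function.Injective d) (hb : 2 ^ (5 * b) ≤ Fintype.card β) :
    b.choose t ≤ finrank (ZMod 2) ↥((PP V t).map (dif x (fun i => x i + d i))) := by
  obtain ⟨t, rfl⟩ := Nat.exists_eq_add_of_le' ht
  have h1 := claimA_aux37 x d hd t b Finset.univ (by rw [Finset.card_univ]; exact hb)
  have h2 : (mulC (Finset.univ : Finset β) ∘ₗ dif x (fun i => x i + d i)) = dif x (fun i => x i + d i) := by
    apply LinearMap.ext
    intro p
    funext i
    show (if i ∈ (Finset.univ : Finset β) then dif x (fun i => x i + d i) p i else 0) = _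
    rw [if_pos (Finset.mem_univ i)]
  rw [h2] at h1
  exact h1

/-- (A') few differences are not separated by a subspace of small codimension -/
theorem few_diff37 (t b : ℕ) (ht : 1 ≤ t) (N : Submodule (ZMod 2) (V → ZMod 2)) (hN : N ≤ PP V t)
    (hc : finrank (ZMod 2) (PP V t) < finrank (ZMod 2) N + b.choose t) :
    (Finset.univ.filter (fun d : V => ∃ x, ∀ p ∈ N, p x = p (x + d))).card < 2 ^ (5 * b) := by
  by_contra hcon
  push Not at hcon
  set D := Finset.univ.filter (fun d : V => ∃ x, ∀ p ∈ N, p x = p (x + d)) with hD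
  have hx : ∀ d : D, ∃ x, ∀ p ∈ N, p x = p (x + (d : V)) := fun d => (Finset.mem_filter.1 d.2).2
  choose x hx using hx
  have h1 := claimA37 t b ht x (fun d : D => (d : V)) Subtype.val_injective (by
    rw [Fintype.card_coe]
    exact hcon)
  have h2 := codim_rank37 (dif x (fun d : D => x d + (d : V))) N (PP V t) hN (by
    intro p hp
    funext d
    rw [dif_apply, ← hx d p hp]
    have : ∀ a : ZMod 2, a + a = 0 := by decide
    exact this _)
  omega

end A37

end RMH
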