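import Pool.Agent.Helper37.RM.LinA

/-! Stage 5, linear algebra: the saturated directions span a small subspace (helper37) -/

set_option autoImplicit false
set_option linter.unusedSectionVars false

open scoped BigOperators
open Classical Module

namespace RMH

section B37

variable {V : Type} [AddCommGroup V] [Module (ZMod 2) V] [Fintype V]

/-- independent elements inside a set with large span -/
lemma exists_indep37 (S : Set V) (k : ℕ) (hk : k ≤ finrank (ZMod 2) (Submodule.span (ZMod 2) S)) :
    ∃ d : Fin k → V, (∀ j, d j ∈ S) ∧ LinearIndependent (ZMod 2) d := by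
  obtain ⟨b, hbS, hspan, hlin⟩ := exists_linearIndependent (ZMod 2) S
  have : Fintype b := Fintype.ofFinite _
  have h1 : finrank (ZMod 2) (Submodule.span (ZMod 2) b) = Fintype.card b := by
    have := finrank_span_eq_card hlin
    rwa [Subtype.range_coe_subtype, Set.ofPred_mem_eq] at this
  rw [← hspan, h1] at hk
  obtain ⟨f⟩ : Nonempty (Fin k ↪ b) := by
    apply Function.Embedding.nonempty_of_card_le
    rw [Fintype.card_fin]
    exact hk
  exact ⟨fun j => (f j : V), fun j => hbS (f j).2, hlin.comp f f.injective⟩

/-- dual functionals of an independent family -/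
lemma exists_dual37 (k : ℕ) (d : Fin k → V) (hd : LinearIndependent (ZMod 2) d) :
    ∃ z : Fin k → Dual (ZMod 2) V, ∀ i j, z i (d j) = if i = j then 1 else 0 := by
  have h1 : ∀ i : Fin k, ∃ z : Dual (ZMod 2) V, ∀ j, z (d j) = if i = j then 1 else 0 := by
    intro i
    obtain ⟨g, hg⟩ := LinearMap.exists_extend ((Basis.span hd).coord i)
    refine ⟨g, fun j => ?_⟩
    have h2 : g (d j) = (g.comp (Submodule.span (ZMod 2) (Set.range d)).subtype) (Basis.span hd j) := by
      rw [LinearMap.comp_apply, Submodule.subtype_apply, Basis.span_apply]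
    rw [h2, hg, Basis.coord_apply, Basis.repr_self, Finsupp.single_apply]
    by_cases h : i = j
    · rw [if_pos h, if_pos h.symm]
    · rw [if_neg h, if_neg (fun h' => h h'.symm)]
  choose z hz using h1
  exact ⟨z, hz⟩

/-- the size of a projection -/
lemma card_proj37 (c k : ℕ) (H : Submodule (ZMod 2) V) (hH : finrank (ZMod 2) H = k) (X : Finset V)
    (hX : 2 ^ c ≤ X.card) : 2 ^ (c - k) ≤ (X.image H.mkQ).card := by
  have h1 : X.card ≤ 2 ^ k * (X.image H.mkQ).card := by
    refine Finset.card_le_mul_card_image _ _ ?_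
    intro q hq
    obtain ⟨x0, hx0, rfl⟩ := Finset.mem_image.1 hq
    have h2 : Fintype.card H = 2 ^ k := by
      have h := Module.card_eq_pow_finrank (K := ZMod 2) (V := H)
      rw [ZMod.card, hH] at h
      exact h
    rw [← h2]
    have h3 : ∀ y ∈ X.filter (fun y => H.mkQ y = H.mkQ x0), y - x0 ∈ H := by
      intro y hy
      have h4 := (Finset.mem_filter.1 hy).2
      rw [Submodule.mkQ_apply, Submodule.mkQ_apply] at h4
      exact (Submodule.Quotient.eq H).1 h4
    rw [← Fintype.card_coe]
    refine Fintype.card_le_of_injective (fun y : (X.filter (fun y => H.mkQ y = H.mkQ x0) : Finset V) =>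
      (⟨(y : V) - x0, h3 y y.2⟩ : H)) ?_
    intro y y' h
    have h4 : (y : V) - x0 = (y' : V) - x0 := congrArg (fun z : H => (z : V)) h
    exact Subtype.ext (sub_left_injective h4)
  by_cases hck : c < k
  · have h2 : c - k = 0 := by omega
    rw [h2, pow_zero]
    by_contra hcon
    have h3 : (X.image H.mkQ).card = 0 := by omega
    rw [h3, mul_zero] at h1
    have : 0 < 2 ^ c := Nat.two_pow_pos c
    omega
  · push Not at hck
    have h2 : 2 ^ c = 2 ^ k * 2 ^ (c - k) := by
      rw [← pow_add]
      congr 1
      omega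
    rw [h2] at hX
    exact Nat.le_of_mul_le_mul_left (hX.trans h1) (Nat.two_pow_pos k)

/-- (B) the saturated directions span a small subspace -/
theorem sat_span37 (t c k : ℕ) (N : Submodule (ZMod 2) (V → ZMod 2)) (hN : N ≤ PP V (t + 1))
    (hc : finrank (ZMod 2) (PP V (t + 1)) < finrank (ZMod 2) N + k * (c - k - t).choose t) :
    finrank (ZMod 2) (Submodule.span (ZMod 2)
      {d : V | 2 ^ c ≤ (Finset.univ.filter (fun x : V => ∀ p ∈ N, p x = p (x + d))).card}) < k := by
  by_contra hcon
  push Not at hcon
  obtain ⟨d, hdS, hd⟩ := exists_indep37 _ k hcon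
  obtain ⟨z, hz⟩ := exists_dual37 k d hd
  set H : Submodule (ZMod 2) V := Submodule.span (ZMod 2) (Set.range d) with hHdef
  have hH : finrank (ZMod 2) H = k := by
    rw [hHdef, finrank_span_eq_card hd, Fintype.card_fin]
  have : Fintype (V ⧸ H) := Fintype.ofFinite _
  set X : Fin k → Finset V := fun j => Finset.univ.filter (fun x : V => ∀ p ∈ N, p x = p (x + d j)) with hXdef
  have hX : ∀ j, 2 ^ c ≤ (X j).card := fun j => hdS j
  -- the evaluation map
  set Φ : (V → ZMod 2) →ₗ[ZMod 2] (Fin k × V → ZMod 2) :=
    { toFun := fun p w => if w.2 ∈ X w.1 then p w.2 + p (w.2 + d w.1) else 0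
      map_add' := fun p q => by
        funext w
        show (if w.2 ∈ X w.1 then (p w.2 + q w.2) + (p (w.2 + d w.1) + q (w.2 + d w.1)) else 0)
          = (if w.2 ∈ X w.1 then p w.2 + p (w.2 + d w.1) else 0) + (if w.2 ∈ X w.1 then q w.2 + q (w.2 + d w.1) else 0)
        split_ifs
        · ring
        · rw [add_zero]
      map_smul' := fun a p => by
        funext w
        show (if w.2 ∈ X w.1 then a * p w.2 + a * p (w.2 + d w.1) else 0)
          = a * (if w.2 ∈ X w.1 then p w.2 + p (w.2 + d w.1) else 0)
        split_ifs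
        · ring
        · rw [mul_zero] } with hΦ
  have hΦa : ∀ p w, Φ p w = if w.2 ∈ X w.1 then p w.2 + p (w.2 + d w.1) else 0 := fun _ _ => rfl
  have e1 := codim_rank37 Φ N (PP V (t + 1)) hN (by
    intro p hp
    funext w
    rw [hΦa]
    split_ifs with hw
    · rw [← (Finset.mem_filter.1 hw).2 p hp]
      have : ∀ a : ZMod 2, a + a = 0 := by decide
      exact this _
    · rfl)
  -- the blocks
  set Ψ : Fin k → (V ⧸ H → ZMod 2) →ₗ[ZMod 2] (V → ZMod 2) := fun j => mulC (X j) ∘ₗ pull H.mkQ with hΨ
  have e2 : ∀ j, (c - k - t).choose t ≤ finrank (ZMod 2) ↥((PP (V ⧸ H) t).map (Ψ j)) := by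
    intro j
    have h1 := card_proj37 c k H hH (X j) (hX j)
    have h2 := hilbert (Aff (V ⧸ H)) one_mem_Aff (fun i j hij => Aff_sep i j hij) t (c - k) _ h1
    refine h2.trans (rank_le_of_ker37 _ _ _ ?_)
    intro p _ hp
    funext q
    rw [mulC_apply]
    split_ifs with hq
    · obtain ⟨x, hx, rfl⟩ := Finset.mem_image.1 hq
      have h3 := congrFun hp x
      have h4 : (if x ∈ X j then p (H.mkQ x) else 0) = 0 := h3
      rw [if_pos hx] at h4
      exact h4
    · rfl
  -- the product embeds
  set W : Fin k → Submodule (ZMod 2) (V → ZMod 2) := fun j => (PP (V ⧸ H) t).map (Ψ j) with hW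
  have e3 : ∑ j, finrank (ZMod 2) (W j) ≤ finrank (ZMod 2) ↥((PP V (t + 1)).map Φ) := by
    rw [← Module.finrank_pi_fintype (ZMod 2)]
    set F : (∀ j, W j) →ₗ[ZMod 2] (Fin k × V → ZMod 2) :=
      { toFun := fun w u => (w u.1 : V → ZMod 2) u.2
        map_add' := fun _ _ => rfl
        map_smul' := fun _ _ => rfl } with hF
    have hrange : ∀ w, F w ∈ (PP V (t + 1)).map Φ := by
      intro w
      have h1 : ∀ j, ∃ s ∈ PP (V ⧸ H) t, Ψ j s = (w j : V → ZMod 2) := fun j => by
        obtain ⟨s, hs, hs2⟩ := (w j).2
        exact ⟨s, hs, hs2⟩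
      choose s hs hs2 using h1
      refine ⟨∑ i, (fun v => z i v) * (fun v => s i (H.mkQ v)), ?_, ?_⟩
      · refine Submodule.sum_mem _ fun i _ => ?_
        have := mul_mem_PP (r := 1) (s := t) (by rw [PP_one]; exact dual_mem_Aff44 (z i))
          (comp_mem_PP H.mkQ (hs i))
        rwa [add_comm 1 t] at this
      · funext u
        obtain ⟨j, x⟩ := u
        rw [hΦa]
        show _ = (w j : V → ZMod 2) x
        rw [← hs2 j]
        show (if x ∈ X j then (∑ i, (fun v => z i v) * (fun v => s i (H.mkQ v)) : V → ZMod 2) x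
            + (∑ i, (fun v => z i v) * (fun v => s i (H.mkQ v)) : V → ZMod 2) (x + d j) else 0)
          = (if x ∈ X j then s j (H.mkQ x) else 0)
        split_ifs
        · rw [Finset.sum_apply, Finset.sum_apply, ← Finset.sum_add_distrib]
          have h2 : ∀ i, ((fun v => z i v) * (fun v => s i (H.mkQ v)) : V → ZMod 2) x
              + ((fun v => z i v) * (fun v => s i (H.mkQ v)) : V → ZMod 2) (x + d j)
              = if i = j then s i (H.mkQ x) else 0 := by
            intro i
            show z i x * s i (H.mkQ x) + z i (x + d j) * s i (H.mkQ (x + d j)) = _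
            have h3 : H.mkQ (x + d j) = H.mkQ x := by
              rw [map_add]
              have : H.mkQ (d j) = 0 := by
                rw [Submodule.mkQ_apply, Submodule.Quotient.mk_eq_zero]
                exact Submodule.subset_span ⟨j, rfl⟩
              rw [this, add_zero]
            rw [h3, map_add, hz i j]
            have h4 : ∀ a b : ZMod 2, a * b + (a + 1) * b = b := by decide
            have h5 : ∀ a b : ZMod 2, a * b + (a + 0) * b = 0 := by decide
            split_ifs
            · exact h4 _ _
            · exact h5 _ _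
          rw [Finset.sum_congr rfl fun i _ => h2 i, Finset.sum_ite_eq' Finset.univ j,
            if_pos (Finset.mem_univ _)]
        · rfl
    refine LinearMap.finrank_le_finrank_of_injective (f := F.codRestrict _ hrange) ?_
    intro w w' h
    have h1 : F w = F w' := congrArg Subtype.val h
    funext j
    apply Subtype.ext
    funext x
    exact congrFun h1 (j, x)
  have e4 : k * (c - k - t).choose t ≤ ∑ j, finrank (ZMod 2) (W j) := by
    have h1 := Finset.sum_le_sum (s := (Finset.univ : Finset (Fin k))) fun j _ => e2 j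
    rw [Finset.sum_const, Finset.card_univ, Fintype.card_fin, smul_eq_mul] at h1
    exact h1
  omega

end B37

end RMH
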