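import Pool.Agent.Helper37.RM.Defs
import Pool.Agent.RM7.S6d

/-! Stage 5: many pairs with saturated differences give (Str) (helper37) -/

set_option autoImplicit false
set_option linter.unusedSectionVars false

open scoped BigOperators
open Classical Module

namespace RMH

/-- the span of the saturated directions -/
def satspan37 {V : Type} [AddCommGroup V] [Module (ZMod 2) V] [Fintype V] {p : ℕ}
    (t c : ℕ) (x y : Fin p → V) : Submodule (ZMod 2) V :=
  Submodule.span (ZMod 2)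
    {d : V | 2 ^ c ≤ (Finset.univ.filter (fun w : V => ∀ f ∈ ZZ t x y, f w = f (w + d))).card}

lemma satspan_small37 {ι V : Type} [AddCommGroup V] [Module (ZMod 2) V] [Fintype V] {p : ℕ}
    (t c k0 ρ : ℕ) (u v : Fin p → ι) (z : ι → V) (h : PairR (t + 1) ρ u v z)
    (hρ : ρ < k0 * (c - k0 - t).choose t) :
    finrank (ZMod 2) (satspan37 (t + 1) c (fun b => z (u b)) (fun b => z (v b))) < k0 := by
  refine sat_span37 t c k0 _ inf_le_left ?_
  have h1 := finrank_map_add (dif (fun b => z (u b)) (fun b => z (v b))) (PP V (t + 1))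
  have h2 : finrank (ZMod 2) ↥((PP V (t + 1)).map (dif (fun b => z (u b)) (fun b => z (v b)))) ≤ ρ := h
  unfold ZZ
  omega

/-- restriction to the rows `J` as a linear map -/
def rwl37 {m : ℕ} (J : Finset (Fin m)) : (Fin m → ZMod 2) →ₗ[ZMod 2] (J → ZMod 2) where
  toFun x := fun j => x j
  map_add' _ _ := rfl
  map_smul' _ _ := rfl

/-- the subspace of the vectors both of whose parts lie in small subspaces is small -/
lemma finrank_inf37 {m : ℕ} (J1 J2 : Finset (Fin m)) (hJ : J1 ∪ J2 = Finset.univ)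
    (H1 : Submodule (ZMod 2) (J1 → ZMod 2)) (H2 : Submodule (ZMod 2) (J2 → ZMod 2)) :
    finrank (ZMod 2) ↥(H1.comap (rwl37 J1) ⊓ H2.comap (rwl37 J2))
      ≤ finrank (ZMod 2) H1 + finrank (ZMod 2) H2 := by
  rw [← Module.finrank_prod]
  refine LinearMap.finrank_le_finrank_of_injective (f :=
    ((((rwl37 J1).comp (H1.comap (rwl37 J1) ⊓ H2.comap (rwl37 J2)).subtype).codRestrict H1
      (fun d => d.2.1)).prod
    (((rwl37 J2).comp (H1.comap (rwl37 J1) ⊓ H2.comap (rwl37 J2)).subtype).codRestrict H2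
      (fun d => d.2.2)))) ?_
  intro d d' h
  apply Subtype.ext
  funext i
  have hi : i ∈ J1 ∪ J2 := by rw [hJ]; exact Finset.mem_univ i
  rcases Finset.mem_union.1 hi with hi | hi
  · exact congrFun (congrArg Subtype.val (congrArg Prod.fst h)) ⟨i, hi⟩
  · exact congrFun (congrArg Subtype.val (congrArg Prod.snd h)) ⟨i, hi⟩

/-- the involution exchanging the members of the chosen pairs -/
lemma exists_inv37 {n p : ℕ} (u v : Fin p → Fin n) (huv : Function.Injective (Sum.elim u v))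
    (G : Finset (Fin p)) :
    ∃ σ : Fin n → Fin n, (∀ i, σ (σ i) = i) ∧
      (∀ i, σ i = i ∨ ∃ b ∈ G, (i = u b ∧ σ i = v b) ∨ (i = v b ∧ σ i = u b)) ∧
      ∀ F : Finset (Fin n), (∀ i ∈ F, σ i = i) → F.card + 2 * G.card ≤ n := by
  obtain ⟨s, hs⟩ : ∃ s : Fin p ⊕ Fin p → Fin n, s = Sum.elim u v := ⟨_, rfl⟩
  have hsi : Function.Injective s := by rw [hs]; exact huv
  obtain ⟨K, hK⟩ : ∃ K : Finset (Fin p ⊕ Fin p), K = G.disjSum G := ⟨_, rfl⟩
  have hKswap : ∀ k ∈ K, k.swap ∈ K := by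
    rw [hK]
    intro k hk
    rcases k with b | b
    · exact Finset.inr_mem_disjSum.2 (Finset.inl_mem_disjSum.1 hk)
    · exact Finset.inl_mem_disjSum.2 (Finset.inr_mem_disjSum.1 hk)
  have hex : ∀ i : Fin n, ∃ j : Fin n, (∀ k ∈ K, s k = i → j = s k.swap) ∧
      ((¬ ∃ k, k ∈ K ∧ s k = i) → j = i) := by
    intro i
    by_cases hi : ∃ k, k ∈ K ∧ s k = i
    · obtain ⟨k, hk, hki⟩ := hi
      refine ⟨s k.swap, fun k' _ hk' => ?_, fun h => absurd ⟨k, hk, hki⟩ h⟩
      rw [hsi (hki.trans hk'.symm)]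
    · exact ⟨i, fun k hk hki => absurd ⟨k, hk, hki⟩ hi, fun _ => rfl⟩
  choose σ hσ1 hσ2 using hex
  have hσ3 : ∀ k ∈ K, σ (s k) = s k.swap := fun k hk => hσ1 (s k) k hk rfl
  refine ⟨σ, ?_, ?_, ?_⟩
  · intro i
    by_cases hi : ∃ k, k ∈ K ∧ s k = i
    · obtain ⟨k, hk, rfl⟩ := hi
      rw [hσ3 k hk, hσ3 _ (hKswap k hk), Sum.swap_swap]
    · rw [hσ2 i hi, hσ2 i hi]
  · intro i
    by_cases hi : ∃ k, k ∈ K ∧ s k = i
    · obtain ⟨k, hk, rfl⟩ := hi
      right
      rw [hσ3 k hk]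
      rw [hK] at hk
      rcases k with b | b
      · exact ⟨b, Finset.inl_mem_disjSum.1 hk, Or.inl ⟨by rw [hs]; rfl, by rw [hs]; rfl⟩⟩
      · exact ⟨b, Finset.inr_mem_disjSum.1 hk, Or.inr ⟨by rw [hs]; rfl, by rw [hs]; rfl⟩⟩
    · exact Or.inl (hσ2 i hi)
  · intro F hF
    have h3 : F.card + (K.image s).card ≤ n := by
      rw [← Finset.card_union_of_disjoint]
      · have := Finset.card_le_univ (F ∪ K.image s)
        rwa [Fintype.card_fin] at this
      · rw [Finset.disjoint_left]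
        intro i hi hi2
        obtain ⟨k, hk, rfl⟩ := Finset.mem_image.1 hi2
        have h4 := hF _ hi
        rw [hσ3 k hk] at h4
        have h5 := hsi h4
        rcases k with b | b
        · exact absurd h5 (by simp)
        · exact absurd h5 (by simp)
    have h4 : (K.image s).card = 2 * G.card := by
      rw [Finset.card_image_of_injective _ hsi, hK, Finset.card_disjSum]
      ring
    omega

/-- the pairs with saturated difference -/
lemma sat_mem37 {V : Type} [AddCommGroup V] [Module (ZMod 2) V] [Fintype V] {p : ℕ}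
    (t c : ℕ) (x y : Fin p → V) :
    ∃ B : Finset (Fin p), B.card = nonsat t c x y ∧ ∀ b, b ∉ B → x b + y b ∈ satspan37 t c x y := by
  refine ⟨_, rfl, fun b hb => Submodule.subset_span ?_⟩
  by_contra hcon
  exact hb (Finset.mem_filter.2 ⟨Finset.mem_univ _, not_le.1 hcon⟩)

lemma rwl_add37 {n m : ℕ} (J : Finset (Fin m)) (x : Fin n → (Fin m → ZMod 2)) (i j : Fin n) :
    rwl37 J (x i + x j) = rws J x i + rws J x j := rfl

/-- the deduction of (Str) -/
theorem str_of_pairs37 (t c k0 ρ p p1 κ m n : ℕ) (J1 J2 : Finset (Fin m)) (hJ : J1 ∪ J2 = Finset.univ)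
    (x : Fin n → (Fin m → ZMod 2)) (u v : Fin p → Fin n) (huv : Function.Injective (Sum.elim u v))
    (h1 : PairR (t + 1) ρ u v (rws J1 x)) (h2 : PairR (t + 1) ρ u v (rws J2 x))
    (hρ : ρ < k0 * (c - k0 - t).choose t)
    (hn1 : nonsat (t + 1) c (fun i => rws J1 x (u i)) (fun i => rws J1 x (v i)) ≤ p1)
    (hn2 : nonsat (t + 1) c (fun i => rws J2 x (u i)) (fun i => rws J2 x (v i)) ≤ p1)
    (hκ : κ * k0 + 2 * p1 < p) : Str κ x := by
  have e1 := satspan_small37 t c k0 ρ u v (rws J1 x) h1 hρ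
  have e2 := satspan_small37 t c k0 ρ u v (rws J2 x) h2 hρ
  obtain ⟨B1, hB1, hB1s⟩ := sat_mem37 (t + 1) c (fun b => rws J1 x (u b)) (fun b => rws J1 x (v b))
  obtain ⟨B2, hB2, hB2s⟩ := sat_mem37 (t + 1) c (fun b => rws J2 x (u b)) (fun b => rws J2 x (v b))
  obtain ⟨H1, hH1⟩ : ∃ H1, H1 = satspan37 (t + 1) c (fun b => rws J1 x (u b)) (fun b => rws J1 x (v b)) :=
    ⟨_, rfl⟩
  obtain ⟨H2, hH2⟩ : ∃ H2, H2 = satspan37 (t + 1) c (fun b => rws J2 x (u b)) (fun b => rws J2 x (v b)) :=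
    ⟨_, rfl⟩
  rw [← hH1] at e1 hB1s
  rw [← hH2] at e2 hB2s
  rw [← hB1] at hn1
  rw [← hB2] at hn2
  clear hH1 hH2 hB1 hB2 h1 h2
  have e3 := finrank_inf37 J1 J2 hJ H1 H2
  obtain ⟨H, hH⟩ : ∃ H, H = H1.comap (rwl37 J1) ⊓ H2.comap (rwl37 J2) := ⟨_, rfl⟩
  rw [← hH] at e3
  obtain ⟨G, hG⟩ : ∃ G : Finset (Fin p), G = Finset.univ \ (B1 ∪ B2) := ⟨_, rfl⟩
  have hGc : p ≤ G.card + 2 * p1 := by
    have h3 := Finset.le_card_sdiff (B1 ∪ B2) (Finset.univ : Finset (Fin p))
    have h4 := Finset.card_union_le B1 B2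
    rw [Finset.card_univ, Fintype.card_fin] at h3
    rw [← hG] at h3
    omega
  -- the differences of the good pairs are in `H`
  have hgood : ∀ b ∈ G, x (u b) + x (v b) ∈ H := by
    intro b hb
    rw [hG] at hb
    have hb' := (Finset.mem_sdiff.1 hb).2
    rw [Finset.mem_union, not_or] at hb'
    rw [hH, Submodule.mem_inf, Submodule.mem_comap, Submodule.mem_comap, rwl_add37, rwl_add37]
    exact ⟨hB1s b hb'.1, hB2s b hb'.2⟩
  obtain ⟨σ, hσ1, hσ2, hσ3⟩ := exists_inv37 u v huv G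
  refine ⟨H, σ, hσ1, ?_, ?_⟩
  · intro i
    have hsub : ∀ a b : Fin m → ZMod 2, a - b = a + b := by
      intro a b
      funext i
      have : ∀ c d : ZMod 2, c - d = c + d := by decide
      exact this _ _
    rcases hσ2 i with h | ⟨b, hb, ⟨h3, h4⟩ | ⟨h3, h4⟩⟩
    · rw [h, sub_self]
      exact H.zero_mem
    · rw [hsub, h4, h3, add_comm]
      exact hgood b hb
    · rw [hsub, h4, h3]
      exact hgood b hb
  · rw [Fintype.card_fin]
    have h5 : κ * finrank (ZMod 2) H ≤ 2 * (κ * k0) := by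
      have h6 : finrank (ZMod 2) H ≤ 2 * k0 := by omega
      calc κ * finrank (ZMod 2) H ≤ κ * (2 * k0) := Nat.mul_le_mul_left _ h6
        _ = 2 * (κ * k0) := by ring
    have h8 : κ * finrank (ZMod 2) H < 2 * G.card := by omega
    refine lt_of_lt_of_le (Nat.add_lt_add_left h8 _) (hσ3 _ ?_)
    intro i hi
    exact ((@Finset.mem_filter _ (fun i => σ i = i) (fun a => propDecidable (σ a = a)) _ _).1 hi).2

end RMH
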